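import Pool.Agent.TH120.Sec.Loc2

/-!
# The local theorem at a prime of a number field, odd exponents
-/

set_option autoImplicit false

namespace Pool.Agent.TH120.Sec

open Pool.Agent.W620.SC Pool.Agent.W623.SecC Polynomial NumberField IsDedekindDomain

universe u v w

/-- the local ring of `v` -/
theorem local_ring {K : Type u} [Field K] [NumberField K] (v : HeightOneSpectrum (𝓞 K)) :
    ∃ (A : Type u) (_ : CommRing A) (_ : IsDomain A) (_ : IsDiscreteValuationRing A)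
      (_ : Algebra A K) (j : 𝓞 K →+* A)
      (e : (𝓞 K ⧸ v.asIdeal) ≃+* IsLocalRing.ResidueField A),
      Finite (IsLocalRing.ResidueField A) ∧ IsFractionRing A K ∧
      (algebraMap A K).comp j = algebraMap (𝓞 K) K ∧
      (IsLocalRing.residue A).comp j =
        (e : (𝓞 K ⧸ v.asIdeal) →+* IsLocalRing.ResidueField A).comp
          (Ideal.Quotient.mk v.asIdeal) ∧
      (∀ c, c ∉ v.asIdeal → IsUnit (j c)) ∧
      ∀ (b : 𝓞 K) (n : ℕ), b ∈ v.asIdeal ^ n → b ∉ v.asIdeal ^ (n + 1) →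
        ∃ ϖ t : A, Irreducible ϖ ∧ IsUnit t ∧
          algebraMap (𝓞 K) K b = algebraMap A K t * algebraMap A K ϖ ^ (n : ℤ) := by
  classical
  have hvm : v.asIdeal.IsMaximal := v.isMaximal
  have hvp : v.asIdeal.IsPrime := v.isPrime
  have hle : v.asIdeal.primeCompl ≤ nonZeroDivisors (𝓞 K) := v.asIdeal.primeCompl_le_nonZeroDivisors
  let A := Localization.subalgebra.ofField K v.asIdeal.primeCompl hle
  have hloc : IsLocalization.AtPrime A v.asIdeal :=
    Localization.subalgebra.isLocalization_ofField K v.asIdeal.primeCompl hle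
  have hdvr : IsDiscreteValuationRing A :=
    IsLocalization.AtPrime.isDiscreteValuationRing_of_dedekind_domain (𝓞 K) v.ne_bot A
  have hfr : IsFractionRing A K := inferInstance
  have hunit : ∀ c : 𝓞 K, c ∉ v.asIdeal → IsUnit (algebraMap (𝓞 K) A c) := fun c hc =>
    (IsLocalization.AtPrime.isUnit_to_map_iff A v.asIdeal c).2 hc
  let e : (𝓞 K ⧸ v.asIdeal) ≃+* IsLocalRing.ResidueField A :=
    IsLocalization.AtPrime.equivQuotMaximalIdeal v.asIdeal A
  have hcomp : (IsLocalRing.residue A).comp (algebraMap (𝓞 K) A) =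
      (e : (𝓞 K ⧸ v.asIdeal) →+* IsLocalRing.ResidueField A).comp
        (Ideal.Quotient.mk v.asIdeal) := by
    ext c
    rfl
  have hcompK : (algebraMap A K).comp (algebraMap (𝓞 K) A) = algebraMap (𝓞 K) K := by
    ext c
    rfl
  have hfin : Finite (IsLocalRing.ResidueField A) := by
    have h1 : Finite (𝓞 K ⧸ v.asIdeal) := Ideal.finiteQuotientOfFreeOfNeBot _ v.ne_bot
    exact Finite.of_equiv _ e.toEquiv
  refine ⟨A, inferInstance, inferInstance, hdvr, inferInstance, algebraMap (𝓞 K) A, e, hfin, hfr,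
    hcompK, hcomp, hunit, ?_⟩
  intro b n hb hb'
  obtain ⟨ϖ, hϖ⟩ := IsDiscreteValuationRing.exists_irreducible A
  have hpow : ∀ m : ℕ, b ∈ v.asIdeal ^ m ↔ algebraMap (𝓞 K) A b ∈
      IsLocalRing.maximalIdeal A ^ m := by
    intro m
    rw [← IsLocalization.AtPrime.under_maximalIdeal_pow v.asIdeal A]
    rfl
  have hb0 : algebraMap (𝓞 K) A b ≠ 0 := by
    intro h
    apply hb'
    rw [hpow, h]
    exact zero_mem _
  obtain ⟨j, u, hj⟩ := IsDiscreteValuationRing.eq_unit_mul_pow_irreducible hb0 hϖ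
  have hdvd : ∀ m : ℕ, b ∈ v.asIdeal ^ m ↔ m ≤ j := by
    intro m
    rw [hpow, hϖ.maximalIdeal_eq, Ideal.span_singleton_pow, Ideal.mem_span_singleton, hj,
      (Units.isUnit u).dvd_mul_left, pow_dvd_pow_iff hϖ.ne_zero hϖ.not_isUnit]
  have hjn : j = n := by
    rw [hdvd] at hb hb'
    omega
  refine ⟨ϖ, u, hϖ, u.isUnit, ?_⟩
  rw [← hcompK, RingHom.comp_apply, hj, map_mul, map_pow, hjn, zpow_natCast]

section

variable {K : Type u} [Field K] [NumberField K] (v : HeightOneSpectrum (𝓞 K))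
    (ℓ : ℕ) (hℓ : ℓ.Prime) (hodd : ℓ ≠ 2) {I : Type} [Fintype I] (g : I → (𝓞 K)[X])
    (e : I → ℕ) (he : ∀ i, ¬ ℓ ∣ e i)
    (hlc : ∀ i, (g i).leadingCoeff ∉ v.asIdeal)
    (hs : ((∏ i, g i).map (Ideal.Quotient.mk v.asIdeal)).Separable)
    (hcyc : ∀ n : ℕ, ¬ ℓ ∣ n → IsCoprime (X ^ (Ideal.absNorm v.asIdeal ^ n) - X)
      ((∏ i, g i).map (Ideal.Quotient.mk v.asIdeal)))
    (b : 𝓞 K) (n : ℕ) (hn : ¬ ℓ ∣ n) (hb : b ∈ v.asIdeal ^ n) (hb' : b ∉ v.asIdeal ^ (n + 1))

include hlc hs hcyc hb hb'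

theorem prime_data_odd :
    ∃ (A : Type u) (_ : CommRing A) (_ : IsDomain A) (_ : IsDiscreteValuationRing A)
      (_ : Algebra A K), Finite (IsLocalRing.ResidueField A) ∧ IsFractionRing A K ∧
      ∃ f : I → A[X], (∏ i, f i ^ e i).map (algebraMap A K) =
        (∏ i, g i ^ e i).map (algebraMap (𝓞 K) K) ∧
        (∀ i, IsUnit (f i).leadingCoeff) ∧
        ((∏ i, f i).map (IsLocalRing.residue A)).Separable ∧
        (∀ n : ℕ, ¬ ℓ ∣ n → IsCoprime (X ^ (Nat.card (IsLocalRing.ResidueField A) ^ n) - X)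
          ((∏ i, f i).map (IsLocalRing.residue A))) ∧
        ∃ ϖ t : A, Irreducible ϖ ∧ IsUnit t ∧
          algebraMap (𝓞 K) K b = algebraMap A K t * algebraMap A K ϖ ^ (n : ℤ) := by
  obtain ⟨A, _, _, _, _, j, ε, hfin, hfr, hjK, hjr, hju, hbn⟩ := local_ring v
  have hmap : (∏ i, (g i).map j).map (IsLocalRing.residue A) =
      ((∏ i, g i).map (Ideal.Quotient.mk v.asIdeal)).map
        (ε : (𝓞 K ⧸ v.asIdeal) →+* IsLocalRing.ResidueField A) := by
    rw [← Polynomial.map_prod, Polynomial.map_map, hjr, ← Polynomial.map_map]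
  have hcard : Nat.card (IsLocalRing.ResidueField A) = Ideal.absNorm v.asIdeal := by
    rw [Ideal.absNorm_apply, Submodule.cardQuot_apply]
    exact (Nat.card_congr ε.toEquiv).symm
  refine ⟨A, inferInstance, inferInstance, inferInstance, inferInstance, hfin, hfr,
    fun i => (g i).map j, ?_, ?_, ?_, ?_, hbn b n hb hb'⟩
  · have h1 : ∏ i, (g i).map j ^ e i = (∏ i, g i ^ e i).map j := by
      rw [Polynomial.map_prod]
      exact Finset.prod_congr rfl fun i _ => (Polynomial.map_pow _ _).symm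
    rw [h1, Polynomial.map_map, hjK]
  · intro i
    rw [leadingCoeff_map_of_leadingCoeff_ne_zero _ (hju _ (hlc i)).ne_zero]
    exact hju _ (hlc i)
  · rw [hmap]
    exact hs.map
  · intro n hn
    rw [hmap, hcard]
    have h1 := (hcyc n hn).map (Polynomial.mapRingHom
      (ε : (𝓞 K ⧸ v.asIdeal) →+* IsLocalRing.ResidueField A))
    rw [coe_mapRingHom, Polynomial.map_sub, Polynomial.map_pow, map_X] at h1
    exact h1

include hℓ hodd he hn

theorem prime_odd_section {F : Type v} {Ω : Type w} [Field F] [Field Ω] [Algebra K F]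
    [Algebra F Ω] [Algebra K Ω] [IsScalarTower K F Ω] [IsAlgClosed Ω] [Algebra.IsAlgebraic F Ω]
    (U : Set (ValuationSubring F)) (hU : ∀ O ∈ U, ∀ c : K, algebraMap K F c ∈ O)
    (x y : F) (hxy : algebraMap K F (algebraMap (𝓞 K) K b) * y ^ ℓ =
      aeval x ((∏ i, g i ^ e i).map (algebraMap (𝓞 K) K))) :
    IsEmpty (GSection K F Ω U) := by
  obtain ⟨A, _, _, _, _, hfin, hfr, f, hfK, hlcA, hsA, hcA, ϖ, t, hϖ, ht, hbt⟩ :=
    prime_data_odd v ℓ g e hlc hs hcyc b n hb hb'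
  refine local_odd ℓ hℓ hodd f e he hlcA hsA hcA ϖ hϖ _ t ht n (by exact_mod_cast hn) hbt U hU
    x y ?_
  rw [hxy, hfK]

theorem prime_odd_point (x y : K) :
    algebraMap (𝓞 K) K b * y ^ ℓ ≠ ((∏ i, g i ^ e i).map (algebraMap (𝓞 K) K)).eval x := by
  obtain ⟨A, _, _, _, _, hfin, hfr, f, hfK, hlcA, hsA, hcA, ϖ, t, hϖ, ht, hbt⟩ :=
    prime_data_odd v ℓ g e hlc hs hcyc b n hb hb'
  rw [← hfK]
  exact local_odd_pt ℓ hℓ hodd f e he hlcA hsA hcA ϖ hϖ _ t ht n (by exact_mod_cast hn) hbt x y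

end

end Pool.Agent.TH120.Sec
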