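import Pool.Agent.TH120.Sec.FamSupply
import Pool.Agent.TH120.Sec.Prime
import Pool.Agent.W623.SecC.Prime

/-!
# The local theorem for the members of a family
-/

set_option autoImplicit false

namespace Pool.Agent.TH120.Sec

open Pool.Agent.W620.SC Pool.Agent.W623.SecC Polynomial NumberField IsDedekindDomain

universe u v w

variable {K : Type u} [Field K] [NumberField K] (v : HeightOneSpectrum (𝓞 K))

/-- a polynomial which is separable modulo `v`, of the same degree, is separable -/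
lemma sep_lift (P : (𝓞 K)[X]) (hlc : P.leadingCoeff ∉ v.asIdeal)
    (hs : (P.map (Ideal.Quotient.mk v.asIdeal)).Separable) :
    (P.map (algebraMap (𝓞 K) K)).Separable := by
  have hvm : v.asIdeal.IsMaximal := v.isMaximal
  let _ : Field (𝓞 K ⧸ v.asIdeal) := Ideal.Quotient.field _
  set m := Ideal.Quotient.mk v.asIdeal with hm
  have hlcm : m P.leadingCoeff ≠ 0 := by
    rwa [Ne, hm, Ideal.Quotient.eq_zero_iff_mem]
  have hdeg : (P.map m).natDegree = P.natDegree := natDegree_map_of_leadingCoeff_ne_zero _ hlcm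
  have h1 : resultant (P.map m) (derivative (P.map m)) P.natDegree P.derivative.natDegree ≠ 0 := by
    obtain ⟨k, hk⟩ : ∃ k, P.derivative.natDegree = (derivative (P.map m)).natDegree + k := by
      rw [derivative_map]
      exact ⟨_, (Nat.add_sub_cancel' natDegree_map_le).symm⟩
    rw [hk, resultant_add_right_deg _ _ _ _ _ le_rfl]
    refine mul_ne_zero (pow_ne_zero _ ?_) ?_
    · rw [coeff_map]
      exact hlcm
    · have h2 := resultant_ne_zero _ _ hs
      rw [hdeg] at h2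
      exact h2
  rw [derivative_map, resultant_map_map] at h1
  have h2 : resultant P P.derivative ≠ 0 := by
    intro h
    apply h1
    rw [h, map_zero]
  have hinj : Function.Injective (algebraMap (𝓞 K) K) := IsFractionRing.injective (𝓞 K) K
  have h3 : resultant (P.map (algebraMap (𝓞 K) K)) (derivative (P.map (algebraMap (𝓞 K) K))) ≠ 0 := by
    rw [derivative_map, natDegree_map_eq_of_injective hinj, natDegree_map_eq_of_injective hinj,
      resultant_map_map]
    rw [Ne, map_eq_zero_iff _ hinj]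
    exact h2
  by_contra h4
  apply h3
  rw [resultant_eq_zero_iff]
  refine ⟨Or.inl ?_, h4⟩
  rw [Ne, Polynomial.map_eq_zero_iff hinj]
  rintro rfl
  apply hlc
  rw [leadingCoeff_zero]
  exact zero_mem _

lemma odd_inf (ℓ : ℕ) (hℓ : ℓ.Prime) (hodd : ℓ ≠ 2) (a b : 𝓞 K) (ha : a ∈ v.asIdeal)
    (ha' : a ∉ v.asIdeal ^ 2) (hb : b ∉ v.asIdeal) (r : K) : (a : K) * r ^ ℓ ≠ b := by
  intro hr
  have hbp : b ^ (ℓ - 1) ∉ v.asIdeal := fun h => hb (v.isPrime.mem_of_pow_mem _ h)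
  have hmax : v.asIdeal.IsMaximal := v.isMaximal
  have hb0 : (b : K) ≠ 0 := by
    intro h0
    apply hb
    have : b = 0 := RingOfIntegers.coe_injective h0
    rw [this]
    exact zero_mem _
  refine prime_odd_point v ℓ hℓ hodd (fun i : Empty => i.elim) (fun _ => 1)
    (fun _ => hℓ.one_lt.ne' ∘ Nat.dvd_one.1) (fun i => i.elim) (by simp)
    (fun n _ => by
      rw [Finset.univ_eq_empty, Finset.prod_empty, Polynomial.map_one]
      exact isCoprime_one_right) (a * b ^ (ℓ - 1)) 1 (hℓ.one_lt.ne' ∘ Nat.dvd_one.1)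
    (by rw [pow_one]; exact Ideal.mul_mem_right _ _ ha) ?_ 0 (r / b) ?_
  · intro h1
    rw [mul_comm] at h1
    rcases Ideal.IsMaximal.mul_mem_pow _ h1 with h2 | h2
    · exact hbp h2
    · exact ha' h2
  · simp only [Finset.univ_eq_empty, Finset.prod_empty, Polynomial.map_one, eval_one]
    have h1 : algebraMap (𝓞 K) K (a * b ^ (ℓ - 1)) = (a : K) * (b : K) ^ (ℓ - 1) := by
      rw [map_mul, map_pow]
    have h2 : (b : K) ^ ℓ = (b : K) ^ (ℓ - 1) * b := by
      rw [← pow_succ, Nat.sub_add_cancel hℓ.one_lt.le]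
    rw [h1, div_pow, h2]
    have hbp0 : (b : K) ^ (ℓ - 1) ≠ 0 := pow_ne_zero _ hb0
    field_simp
    exact hr

section

variable (ℓ d : ℕ) (hℓ : ℓ.Prime) (hd : ℓ = 2 → Even d ∧ 4 ≤ d) (P : (𝓞 K)[X])
  (hP : Loc v ℓ d P) (b : 𝓞 K) (hb : b ∈ v.asIdeal) (hb' : b ∉ v.asIdeal ^ 2)

include hℓ hd hP hb hb'

theorem loc_section {F : Type v} {Ω : Type w} [Field F] [Field Ω] [Algebra K F]
    [Algebra F Ω] [Algebra K Ω] [IsScalarTower K F Ω] [IsAlgClosed Ω] [Algebra.IsAlgebraic F Ω]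
    (U : Set (ValuationSubring F)) (hU : ∀ O ∈ U, ∀ c : K, algebraMap K F c ∈ O)
    (x y : F) (hxy : algebraMap K F (algebraMap (𝓞 K) K b) * y ^ ℓ =
      aeval x (P.map (algebraMap (𝓞 K) K))) :
    IsEmpty (GSection K F Ω U) := by
  obtain ⟨h1, h2, h3, h4, h5⟩ := hP
  by_cases hℓ2 : ℓ = 2
  · subst hℓ2
    obtain ⟨h6, h7⟩ := h4 rfl
    obtain ⟨h8, h9⟩ := hd rfl
    exact prime_no_section v h6 P h2 h3 h7 b 1 odd_one (by rwa [pow_one]) hb' (by rwa [h1])
      (by rwa [h1]) U hU x y hxy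
  · refine prime_odd_section v ℓ hℓ hℓ2 (fun _ : Unit => P) (fun _ => 1)
      (fun _ => hℓ.one_lt.ne' ∘ Nat.dvd_one.1) (fun _ => h2) (by simpa using h3)
      (by simpa using h5 hℓ2) b 1 (hℓ.one_lt.ne' ∘ Nat.dvd_one.1) (by rwa [pow_one]) hb' U hU x y ?_
    rw [hxy, Finset.univ_unique, Finset.prod_singleton, pow_one]

theorem loc_point (x y : K) :
    algebraMap (𝓞 K) K b * y ^ ℓ ≠ (P.map (algebraMap (𝓞 K) K)).eval x := by
  obtain ⟨h1, h2, h3, h4, h5⟩ := hP
  by_cases hℓ2 : ℓ = 2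
  · subst hℓ2
    obtain ⟨h6, h7⟩ := h4 rfl
    obtain ⟨h8, h9⟩ := hd rfl
    exact prime_no_point v h6 P h2 h3 h7 b 1 odd_one (by rwa [pow_one]) hb' (by rwa [h1]) x y
  · have := prime_odd_point v ℓ hℓ hℓ2 (fun _ : Unit => P) (fun _ => 1)
      (fun _ => hℓ.one_lt.ne' ∘ Nat.dvd_one.1) (fun _ => h2) (by simpa using h3)
      (by simpa using h5 hℓ2) b 1 (hℓ.one_lt.ne' ∘ Nat.dvd_one.1) (by rwa [pow_one]) hb' x y
    rw [Finset.univ_unique, Finset.prod_singleton, pow_one] at this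
    exact this

theorem loc_infinite (r : K) :
    algebraMap (𝓞 K) K b * r ^ ℓ ≠ algebraMap (𝓞 K) K P.leadingCoeff := by
  obtain ⟨h1, h2, h3, h4, h5⟩ := hP
  by_cases hℓ2 : ℓ = 2
  · subst hℓ2
    obtain ⟨h6, h7⟩ := h4 rfl
    exact prime_no_infinite v h6 P h2 h3 h7 b 1 odd_one (by rwa [pow_one]) hb' r
  · exact odd_inf v ℓ hℓ hℓ2 b _ hb hb' h2 r

end

/-! ### clearing denominators -/

lemma clear1 (g : K[X]) : ∃ a : 𝓞 K, a ≠ 0 ∧ ∃ G : (𝓞 K)[X],
    G.map (algebraMap (𝓞 K) K) = C (a : K) * g := by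
  obtain ⟨b, hbm, hb⟩ := IsLocalization.integerNormalization_spec (nonZeroDivisors (𝓞 K)) g
  refine ⟨b, nonZeroDivisors.ne_zero hbm,
    IsLocalization.integerNormalization (nonZeroDivisors (𝓞 K)) g, ?_⟩
  rw [hb]
  ext n
  rw [coeff_smul, coeff_C_mul, Algebra.smul_def]

lemma clear2 (h : K[X][X]) : ∃ a : 𝓞 K, a ≠ 0 ∧ ∃ H : (𝓞 K)[X][X],
    H.map (mapRingHom (algebraMap (𝓞 K) K)) = C (C (a : K)) * h := by
  induction h using Polynomial.induction_on' with
  | add p q hp hq =>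
    obtain ⟨a, ha, A, hA⟩ := hp
    obtain ⟨b, hb, B, hB⟩ := hq
    refine ⟨a * b, mul_ne_zero ha hb, C (C b) * A + C (C a) * B, ?_⟩
    rw [Polynomial.map_add, Polynomial.map_mul, Polynomial.map_mul, map_C, map_C, coe_mapRingHom,
      map_C, map_C, hA, hB]
    have e : ((a * b : 𝓞 K) : K) = (a : K) * b := map_mul (algebraMap (𝓞 K) K) a b
    rw [e, C_mul, C_mul]
    ring
  | monomial n c =>
    obtain ⟨a, ha, A, hA⟩ := clear1 c
    refine ⟨a, ha, monomial n A, ?_⟩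
    rw [map_monomial, coe_mapRingHom, hA, C_mul_monomial]

end Pool.Agent.TH120.Sec
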