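import Pool.Agent.TH120.Sec.Dens

/-!
# Counting for diagonal curves
-/

set_option autoImplicit false

namespace Pool.Agent.TH120.Sec

open NumberField IsDedekindDomain

universe u

section finite

variable {κ : Type u} [Field κ] [Finite κ]

lemma powers_card (M : ℕ) (hM : M.Prime) (hd : M ∣ Nat.card κ - 1) :
    2 * (Set.range fun r : κ => r ^ M).ncard ≤ Nat.card κ + 1 := by
  classical
  have := Fintype.ofFinite κ
  have hcu : Nat.card κˣ = Nat.card κ - 1 := Nat.card_units κ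
  have hpos : 0 < Nat.card κ := Nat.card_pos
  obtain ⟨ζ, hζ⟩ : ∃ ζ : κˣ, orderOf ζ = M := by
    have : Fact M.Prime := ⟨hM⟩
    exact exists_prime_orderOf_dvd_card' M (by rw [hcu]; exact hd)
  set h : κˣ →* κˣ := powMonoidHom M with hh
  have h1 : Nat.card h.range * Nat.card h.ker = Nat.card κˣ := by
    rw [← Subgroup.index_ker, Subgroup.index_mul_card]
  have h2 : 2 ≤ Nat.card h.ker := by
    have h3 : ζ ∈ h.ker := by
      rw [MonoidHom.mem_ker]
      change ζ ^ M = 1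
      rw [← hζ, pow_orderOf_eq_one]
    have h4 : ζ ≠ 1 := by
      rintro rfl
      rw [orderOf_one] at hζ
      exact hM.one_lt.ne hζ
    have : Nontrivial h.ker := ⟨⟨⟨ζ, h3⟩, 1, fun h => h4 (congrArg Subtype.val h)⟩⟩
    exact Finite.one_lt_card
  have h3 : Nat.card h.range * 2 ≤ Nat.card κ - 1 := by
    rw [← hcu, ← h1]
    exact Nat.mul_le_mul_left _ h2
  have h4 : (Set.range fun r : κ => r ^ M) ⊆ insert 0 ((fun u : κˣ => (u : κ)) '' h.range) := by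
    rintro _ ⟨r, rfl⟩
    by_cases hr : r = 0
    · left
      simp [hr, hM.ne_zero]
    · right
      exact ⟨(Units.mk0 r hr) ^ M, ⟨Units.mk0 r hr, rfl⟩, by simp⟩
  have h5 : (Set.range fun r : κ => r ^ M).ncard ≤ Nat.card h.range + 1 := by
    refine (Set.ncard_le_ncard h4 (Set.toFinite _)).trans ?_
    refine (Set.ncard_insert_le _ _).trans ?_
    refine Nat.add_le_add_right ?_ 1
    refine (Set.ncard_image_le (Set.toFinite _)).trans ?_
    rw [← Nat.card_coe_set_eq]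
    rfl
  omega

/-- the good pairs of coefficients -/
def QQ (κ : Type u) [Field κ] (M : ℕ) : Set (κ × κ) :=
  {x | x.1 ≠ 0 ∧ ∀ r, x.1 * r ^ M + x.2 ≠ 0}

lemma QQ_card (M : ℕ) (hM : M.Prime) (hd : M ∣ Nat.card κ - 1) :
    (Nat.card κ - 1) ^ 2 ≤ 2 * (QQ κ M).ncard := by
  classical
  have := Fintype.ofFinite κ
  set R := (Set.range fun r : κ => r ^ M) with hR
  have h1 := powers_card (κ := κ) M hM hd
  rw [← hR] at h1
  -- the injection from units times the complement of the powers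
  have h2 : ((Set.univ \ {0} : Set κ) ×ˢ (Set.univ \ R : Set κ)).ncard ≤ (QQ κ M).ncard := by
    refine Set.ncard_le_ncard_of_injOn (fun x : κ × κ => (x.1, -x.1 * x.2)) ?_ ?_ (Set.toFinite _)
    · rintro ⟨b, c⟩ ⟨hb, hc⟩
      refine ⟨hb.2, fun r hr => hc.2 ⟨r, ?_⟩⟩
      have hb0 : b ≠ 0 := hb.2
      have h3 : b * (r ^ M - c) = 0 := by
        have : b * r ^ M + -b * c = 0 := hr
        linear_combination this
      exact sub_eq_zero.1 ((mul_eq_zero.1 h3).resolve_left hb0)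
    · rintro ⟨b, c⟩ ⟨hb, hc⟩ ⟨b', c'⟩ ⟨hb', hc'⟩ h
      simp only [Prod.mk.injEq] at h
      obtain ⟨rfl, h⟩ := h
      have hb0 : -b ≠ 0 := neg_ne_zero.2 hb.2
      rw [mul_right_inj' hb0] at h
      rw [h]
  rw [Set.ncard_prod, Set.ncard_sdiff (Set.subset_univ _), Set.ncard_sdiff (Set.subset_univ _),
    Set.ncard_univ, Set.ncard_singleton] at h2
  have h3 : Nat.card κ - 1 ≤ 2 * (Nat.card κ - R.ncard) := by
    have : 0 < Nat.card κ := Nat.card_pos
    omega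
  calc (Nat.card κ - 1) ^ 2 = (Nat.card κ - 1) * (Nat.card κ - 1) := sq _
    _ ≤ (Nat.card κ - 1) * (2 * (Nat.card κ - R.ncard)) := Nat.mul_le_mul_left _ h3
    _ = 2 * ((Nat.card κ - 1) * (Nat.card κ - R.ncard)) := by ring
    _ ≤ 2 * (QQ κ M).ncard := Nat.mul_le_mul_left _ h2

end finite

variable {K : Type u} [Field K] [NumberField K] (v : HeightOneSpectrum (𝓞 K))

/-- reduction modulo the prime -/
noncomputable def pr : (𝓞 K ⧸ v.asIdeal ^ 2) →+* (𝓞 K ⧸ v.asIdeal) :=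
  Ideal.Quotient.factor (Ideal.pow_le_self two_ne_zero)

lemma pr_mk (a : 𝓞 K) : pr v (Ideal.Quotient.mk _ a) = Ideal.Quotient.mk _ a := rfl

lemma pr_surj : Function.Surjective (pr v) := by
  intro x
  obtain ⟨a, rfl⟩ := Ideal.Quotient.mk_surjective x
  exact ⟨Ideal.Quotient.mk _ a, rfl⟩

lemma pr_zero_iff (x : 𝓞 K ⧸ v.asIdeal ^ 2) :
    pr v x = 0 ↔ x ∈ (v.asIdeal.map (Ideal.Quotient.mk (v.asIdeal ^ 2)) :
      Ideal (𝓞 K ⧸ v.asIdeal ^ 2)) := by
  obtain ⟨a, rfl⟩ := Ideal.Quotient.mk_surjective x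
  rw [pr_mk, Ideal.Quotient.eq_zero_iff_mem, ← Ideal.mem_comap,
    Ideal.comap_map_of_surjective _ Ideal.Quotient.mk_surjective, ← RingHom.ker_eq_comap_bot,
    Ideal.mk_ker, sup_eq_left.mpr (Ideal.pow_le_self two_ne_zero)]

lemma ker_ncard : {x : 𝓞 K ⧸ v.asIdeal ^ 2 | pr v x = 0}.ncard = Ideal.absNorm v.asIdeal := by
  rw [← Pool.Agent.W417.SecC.D2.card_ker v, ← Nat.card_coe_set_eq]
  refine Nat.card_congr (Equiv.subtypeEquivRight fun x => pr_zero_iff v x)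

lemma finite_sq : Finite (𝓞 K ⧸ v.asIdeal ^ 2) := by
  apply Nat.finite_of_card_ne_zero
  rw [Pool.Agent.W417.SecC.D2.card_sq]
  exact pow_ne_zero _ (Pool.Agent.W417.SecC.D2.norm_pos _).ne'

/-- the good triples of coefficients modulo `v ^ 2` -/
def Good (M : ℕ) : Set (Fin 3 → 𝓞 K ⧸ v.asIdeal ^ 2) :=
  {x | pr v (x 0) = 0 ∧ x 0 ≠ 0 ∧ pr v (x 1) ≠ 0 ∧ ∀ r, pr v (x 1) * r ^ M + pr v (x 2) ≠ 0}

lemma card_residue : Nat.card (𝓞 K ⧸ v.asIdeal) = Ideal.absNorm v.asIdeal := by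
  rw [Ideal.absNorm_apply, Submodule.cardQuot_apply]

lemma good_card (M : ℕ) (hM : M.Prime) (hd : M ∣ Ideal.absNorm v.asIdeal - 1) :
    (Ideal.absNorm v.asIdeal - 1) ^ 3 * Ideal.absNorm v.asIdeal ^ 2 ≤ 2 * (Good v M).ncard := by
  classical
  have hfin := finite_sq v
  have hmax : v.asIdeal.IsMaximal := v.isMaximal
  have hfin' : Finite (𝓞 K ⧸ v.asIdeal) := Ideal.finiteQuotientOfFreeOfNeBot _ v.ne_bot
  let _ : Field (𝓞 K ⧸ v.asIdeal) := Ideal.Quotient.field _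
  set N := Ideal.absNorm v.asIdeal with hN
  have hq := QQ_card (κ := 𝓞 K ⧸ v.asIdeal) M hM (by rw [card_residue]; exact hd)
  rw [card_residue, ← hN] at hq
  set J : Set (𝓞 K ⧸ v.asIdeal ^ 2) := {x | pr v x = 0} with hJ
  have hJc : J.ncard = N := ker_ncard v
  have hJ0 : (J \ {0}).ncard = N - 1 := by
    rw [Set.ncard_sdiff_singleton_of_mem (show (0 : 𝓞 K ⧸ v.asIdeal ^ 2) ∈ J from map_zero _), hJc]
  let s := Function.surjInv (pr_surj v)
  have hs : ∀ x, pr v (s x) = x := Function.surjInv_eq (pr_surj v)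
  have h1 : (((J \ {0}) ×ˢ (QQ (𝓞 K ⧸ v.asIdeal) M)) ×ˢ (J ×ˢ J)).ncard ≤ (Good v M).ncard := by
    refine Set.ncard_le_ncard_of_injOn
      (fun x => ![x.1.1, s x.1.2.1 + x.2.1, s x.1.2.2 + x.2.2]) ?_ ?_ (Set.toFinite _)
    · rintro ⟨⟨j, b, c⟩, j1, j2⟩ ⟨⟨hj, hbc⟩, hj1, hj2⟩
      have e1 : pr v (s b + j1) = b := by
        rw [map_add, hs, show pr v j1 = 0 from hj1, add_zero]
      have e2 : pr v (s c + j2) = c := by
        rw [map_add, hs, show pr v j2 = 0 from hj2, add_zero]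
      refine ⟨hj.1, hj.2, ?_, ?_⟩
      · change pr v (s b + j1) ≠ 0
        rw [e1]
        exact hbc.1
      · intro r
        change pr v (s b + j1) * r ^ M + pr v (s c + j2) ≠ 0
        rw [e1, e2]
        exact hbc.2 r
    · rintro ⟨⟨j, b, c⟩, j1, j2⟩ ⟨⟨hj, hbc⟩, hj1, hj2⟩ ⟨⟨j', b', c'⟩, j1', j2'⟩
        ⟨⟨hj', hbc'⟩, hj1', hj2'⟩ h
      have h0 : j = j' := congrFun h 0
      have h1 : s b + j1 = s b' + j1' := congrFun h 1
      have h2 : s c + j2 = s c' + j2' := congrFun h 2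
      have e1 : b = b' := by
        have := congrArg (pr v) h1
        rwa [map_add, map_add, hs, hs, show pr v j1 = 0 from hj1, show pr v j1' = 0 from hj1',
          add_zero, add_zero] at this
      have e2 : c = c' := by
        have := congrArg (pr v) h2
        rwa [map_add, map_add, hs, hs, show pr v j2 = 0 from hj2, show pr v j2' = 0 from hj2',
          add_zero, add_zero] at this
      subst h0 e1 e2
      rw [add_right_inj] at h1 h2
      rw [h1, h2]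
  rw [Set.ncard_prod, Set.ncard_prod, Set.ncard_prod, hJc, hJ0] at h1
  calc (N - 1) ^ 3 * N ^ 2 = (N - 1) * (N - 1) ^ 2 * (N * N) := by ring
    _ ≤ (N - 1) * (2 * (QQ (𝓞 K ⧸ v.asIdeal) M).ncard) * (N * N) := by
        gcongr
    _ = 2 * ((N - 1) * (QQ (𝓞 K ⧸ v.asIdeal) M).ncard * (N * N)) := by ring
    _ ≤ 2 * (Good v M).ncard := Nat.mul_le_mul_left _ h1

/-- the complement of the good triples -/
lemma bad_card (M : ℕ) (hM : M.Prime) (hd : M ∣ Ideal.absNorm v.asIdeal - 1) :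
    (((Good v M)ᶜ).ncard : ℝ) ≤ (1 - (1 / 8) * (1 / (Ideal.absNorm v.asIdeal : ℝ) -
      1 / (Ideal.absNorm v.asIdeal : ℝ) ^ 2)) * ((Ideal.absNorm v.asIdeal : ℝ) ^ 2) ^ 3 := by
  classical
  have hfin := finite_sq v
  have h1 := good_card v M hM hd
  have h2 : (Good v M).ncard + ((Good v M)ᶜ).ncard = (Ideal.absNorm v.asIdeal ^ 2) ^ 3 := by
    rw [Set.ncard_add_ncard_compl, Nat.card_fun, Pool.Agent.W417.SecC.D2.card_sq, Nat.card_fin]
  set N := Ideal.absNorm v.asIdeal with hN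
  have hN2 : 2 ≤ N := by
    by_contra h
    have h3 : N = 0 ∨ N = 1 := by omega
    rcases h3 with h3 | h3
    · exact absurd h3 (Pool.Agent.W417.SecC.D2.norm_pos v).ne'
    · rw [hN, Ideal.absNorm_eq_one_iff] at h3
      exact v.isPrime.ne_top h3
  obtain ⟨m, hm⟩ : ∃ m, N = m + 2 := ⟨N - 2, by omega⟩
  have h3 : ((Good v M).ncard : ℝ) + (((Good v M)ᶜ).ncard : ℝ) = ((N : ℝ) ^ 2) ^ 3 := by
    exact_mod_cast h2
  have h4 : ((N : ℝ) - 1) ^ 3 * (N : ℝ) ^ 2 ≤ 2 * ((Good v M).ncard : ℝ) := by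
    have h5 : ((N - 1 : ℕ) : ℝ) = (N : ℝ) - 1 := by
      rw [Nat.cast_sub (by omega)]
      norm_num
    rw [← h5]
    exact_mod_cast h1
  have hNr : (2 : ℝ) ≤ N := by exact_mod_cast hN2
  have h6 : (1 - (1 / 8) * (1 / (N : ℝ) - 1 / (N : ℝ) ^ 2)) * ((N : ℝ) ^ 2) ^ 3 =
      ((N : ℝ) ^ 2) ^ 3 - (1 / 8) * ((N : ℝ) - 1) * (N : ℝ) ^ 4 := by
    field_simp
  rw [h6]
  have h7 : (1 / 4) * ((N : ℝ) - 1) * (N : ℝ) ^ 4 ≤ ((N : ℝ) - 1) ^ 3 * (N : ℝ) ^ 2 := by
    have h8 : (1 / 4) * (N : ℝ) ^ 2 ≤ ((N : ℝ) - 1) ^ 2 := by nlinarith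
    have h9 : 0 ≤ ((N : ℝ) - 1) * (N : ℝ) ^ 2 := by
      apply mul_nonneg
      · linarith
      · exact sq_nonneg _
    nlinarith [mul_le_mul_of_nonneg_left h8 h9]
  linarith

end Pool.Agent.TH120.Sec
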