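import Pool.Agent.W623.SecC.Unr

/-!
# Sections of cyclic covers: the tame Kummer argument (helper120)

Kummer theory for a section over a field `S` of constants whose value group is generated by the
value of one element `p`, for an arbitrary exponent `ℓ`.
-/

set_option autoImplicit false

namespace Pool.Agent.TH120.Sec

open Pool.Agent.W620.SC Pool.Agent.W623.SecC

/-- a semilinear action `s` on `M`, a tame field `S` of constants, an automorphism `φ` -/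
structure TDat (k A M : Type*) [Field k] [Field A] [Field M] [Algebra k A] where
  s : (A ≃ₐ[k] A) →* RingAut M
  ι : A →+* M
  hι : ∀ σ a, s σ (ι a) = ι (σ a)
  cont : ∀ w : M, ∃ E : IntermediateField k A, FiniteDimensional k E ∧
    ∀ σ ∈ E.fixingSubgroup, s σ w = w
  S : IntermediateField k A
  V : ValuationSubring A
  p : A
  pS : p ∈ S
  p0 : p ≠ 0
  pn : p ∈ V.nonunits
  tame : ∀ c ∈ S, c ≠ 0 → ∃ j : ℤ, IsU V (c / p ^ j)
  φ : A ≃ₐ[k] A
  φp : φ p = p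
  φV : ∀ x, φ x ∈ V ↔ x ∈ V
  φS : ∀ x, φ x ∈ S ↔ x ∈ S

lemma IsU.zpow {K : Type*} [Field K] {V : ValuationSubring K} {x : K} (hx : IsU V x) (n : ℤ) :
    IsU V (x ^ n) := by
  rcases n with n | n
  · rw [Int.ofNat_eq_natCast, zpow_natCast]; exact hx.pow n
  · rw [zpow_negSucc]; exact (hx.pow _).inv

namespace TDat

variable {k A M : Type*} [Field k] [Field A] [Field M] [Algebra k A] (D : TDat k A M)

/-- the elements fixed by `s(σ)` for all `σ` fixing `S` -/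
def RS : Subfield M where
  carrier := {m | ∀ σ ∈ D.S.fixingSubgroup, D.s σ m = m}
  mul_mem' := fun {a b} ha hb σ hσ => by rw [map_mul, ha σ hσ, hb σ hσ]
  one_mem' := fun σ _ => map_one _
  add_mem' := fun {a b} ha hb σ hσ => by rw [map_add, ha σ hσ, hb σ hσ]
  zero_mem' := fun σ _ => map_zero _
  neg_mem' := fun {a} ha σ hσ => by rw [map_neg, ha σ hσ]
  inv_mem' := fun a ha σ hσ => by rw [map_inv₀, ha σ hσ]

lemma mem_RS {m : M} : m ∈ D.RS ↔ ∀ σ ∈ D.S.fixingSubgroup, D.s σ m = m := Iff.rfl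

lemma ι_mem {a : A} (ha : a ∈ D.S) : D.ι a ∈ D.RS := by
  intro σ hσ
  rw [D.hι, (IntermediateField.mem_fixingSubgroup_iff _ _).1 hσ a ha]

lemma mem_of_ι [CharZero k] [IsAlgClosed A] [Algebra.IsAlgebraic k A] {a : A}
    (ha : D.ι a ∈ D.RS) : a ∈ D.S := by
  have : IsAlgClosure k A := ⟨inferInstance, inferInstance⟩
  have : Normal k A := IsAlgClosure.normal k A
  have : IsGalois k A := ⟨⟩
  apply mem_of_fixed
  intro σ hσ
  apply D.ι.injective
  rw [← D.hι]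
  exact ha σ hσ

/-- `φ` acts on the fixed field -/
lemma φ_mem {m : M} (hm : m ∈ D.RS) : D.s D.φ m ∈ D.RS := by
  intro σ hσ
  have h1 : D.φ⁻¹ * σ * D.φ ∈ D.S.fixingSubgroup := by
    rw [IntermediateField.mem_fixingSubgroup_iff]
    intro x hx
    change D.φ.symm (σ (D.φ x)) = x
    rw [(IntermediateField.mem_fixingSubgroup_iff _ _).1 hσ _ ((D.φS x).2 hx), D.φ.symm_apply_apply]
  have h2 := hm _ h1
  have h3 : σ * D.φ = D.φ * (D.φ⁻¹ * σ * D.φ) := by group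
  change (D.s σ * D.s D.φ) m = _
  rw [← map_mul, h3, map_mul]
  change D.s D.φ (D.s (D.φ⁻¹ * σ * D.φ) m) = _
  rw [h2]

variable (ℓ : ℕ)

/-- `u` is a constant of value `j` up to `ℓ`-th powers of the fixed field -/
def Par (u : M) (j : ℤ) : Prop :=
  ∃ c ∈ D.S, IsU D.V (c / D.p ^ j) ∧ ∃ β ∈ D.RS, β ≠ 0 ∧ u = D.ι c * β ^ ℓ

variable {D ℓ}

lemma c_ne {c : A} {j : ℤ} (h : IsU D.V (c / D.p ^ j)) : c ≠ 0 := by
  rintro rfl
  rw [zero_div] at h
  exact h.1 rfl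

lemma Par.ne {u : M} {j : ℤ} (h : D.Par ℓ u j) : u ≠ 0 := by
  obtain ⟨c, -, hc, β, -, h0, rfl⟩ := h
  exact mul_ne_zero ((_root_.map_ne_zero _).2 (c_ne hc)) (pow_ne_zero _ h0)

lemma Par.mul {u v : M} {i j : ℤ} (hu : D.Par ℓ u i) (hv : D.Par ℓ v j) :
    D.Par ℓ (u * v) (i + j) := by
  obtain ⟨c, hcS, hc, β, h1, h0, rfl⟩ := hu
  obtain ⟨d, hdS, hd, γ, h1', h0', rfl⟩ := hv
  refine ⟨c * d, mul_mem hcS hdS, ?_, β * γ, mul_mem h1 h1', mul_ne_zero h0 h0', ?_⟩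
  · rw [zpow_add₀ D.p0, mul_div_mul_comm]
    exact hc.mul hd
  · rw [map_mul]
    ring

lemma Par.inv {u : M} {i : ℤ} (hu : D.Par ℓ u i) : D.Par ℓ u⁻¹ (-i) := by
  obtain ⟨c, hcS, hc, β, h1, h0, rfl⟩ := hu
  refine ⟨c⁻¹, inv_mem hcS, ?_, β⁻¹, inv_mem h1, inv_ne_zero h0, ?_⟩
  · rw [zpow_neg, ← inv_div_inv, inv_inv, inv_inv, ← inv_div]
    have := hc.inv
    rwa [inv_div] at this ⊢
  · rw [mul_inv, inv_pow, map_inv₀]

lemma Par.div {u v : M} {i j : ℤ} (hu : D.Par ℓ u i) (hv : D.Par ℓ v j) :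
    D.Par ℓ (u / v) (i - j) := by
  rw [div_eq_mul_inv, sub_eq_add_neg]
  exact hu.mul hv.inv

lemma Par.const {c : A} (hc : c ∈ D.S) {j : ℤ} (h : IsU D.V (c / D.p ^ j)) :
    D.Par ℓ (D.ι c) j :=
  ⟨c, hc, h, 1, one_mem _, one_ne_zero, by rw [one_pow, mul_one]⟩

lemma Par.one : D.Par ℓ 1 0 := by
  have := Par.const (D := D) (ℓ := ℓ) (one_mem _) (j := 0) (by
    rw [zpow_zero, div_one]; exact isU_one)
  rwa [map_one] at this

lemma Par.powℓ {u : M} (hu : u ∈ D.RS) (h0 : u ≠ 0) : D.Par ℓ (u ^ ℓ) 0 :=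
  ⟨1, one_mem _, by rw [zpow_zero, div_one]; exact isU_one, u, hu, h0, by rw [map_one, one_mul]⟩

lemma Par.pow {u : M} {j : ℤ} (hu : D.Par ℓ u j) (n : ℕ) : D.Par ℓ (u ^ n) (n * j) := by
  induction n with
  | zero => rw [pow_zero]; simpa using Par.one
  | succ n ih =>
    rw [pow_succ]
    have := ih.mul hu
    convert this using 1
    push_cast
    ring

lemma Par.prod {I : Type*} (t : Finset I) (u : I → M) (j : I → ℤ)
    (h : ∀ i ∈ t, D.Par ℓ (u i) (j i)) :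
    D.Par ℓ (∏ i ∈ t, u i) (∑ i ∈ t, j i) := by
  classical
  induction t using Finset.induction_on with
  | empty => rw [Finset.prod_empty, Finset.sum_empty]; exact Par.one
  | insert a t ha ih =>
    rw [Finset.prod_insert ha, Finset.sum_insert ha]
    exact (h a (Finset.mem_insert_self a t)).mul
      (ih fun i hi => h i (Finset.mem_insert_of_mem hi))

lemma Par.map_φ {u : M} {j : ℤ} (h : D.Par ℓ u j) : D.Par ℓ (D.s D.φ u) j := by
  obtain ⟨c, hcS, hc, β, h1, h0, rfl⟩ := h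
  refine ⟨D.φ c, (D.φS c).2 hcS, ?_, D.s D.φ β, D.φ_mem h1, (_root_.map_ne_zero _).2 h0, ?_⟩
  · have h2 : D.φ c / D.p ^ j = D.φ (c / D.p ^ j) := by
      rw [map_div₀, map_zpow₀, D.φp]
    rw [h2]
    refine ⟨(_root_.map_ne_zero _).2 hc.1, (D.φV _).2 hc.2.1, ?_⟩
    rw [← map_inv₀]
    exact (D.φV _).2 hc.2.2
  · rw [map_mul, map_pow, D.hι]

lemma Par.unique [CharZero k] [IsAlgClosed A] [Algebra.IsAlgebraic k A] (hℓ : 0 < ℓ) {u : M}
    {i j : ℤ} (hi : D.Par ℓ u i) (hj : D.Par ℓ u j) : ((i : ZMod ℓ)) = j := by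
  obtain ⟨c, hcS, hc, β, h1, h0, h⟩ := hi
  obtain ⟨d, hdS, hd, γ, h1', h0', h'⟩ := hj
  have hd0 := c_ne hd
  have hc0 := c_ne hc
  have hιd : D.ι d ≠ 0 := (_root_.map_ne_zero _).2 hd0
  have h2 : (γ / β) ^ ℓ = D.ι (c / d) := by
    rw [div_pow, map_div₀, div_eq_div_iff (pow_ne_zero _ h0) hιd]
    rw [h] at h'
    rw [mul_comm, ← h']
  obtain ⟨b, hb⟩ := root_mem D.ι hℓ h2
  have hbS : b ∈ D.S := D.mem_of_ι (by rw [hb]; exact div_mem h1' h1)
  have hbℓ : b ^ ℓ = c / d := by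
    apply D.ι.injective
    rw [map_pow, hb, h2]
  have hb0 : b ≠ 0 := by
    rintro rfl
    rw [zero_pow hℓ.ne'] at hbℓ
    exact (div_ne_zero hc0 hd0) hbℓ.symm
  obtain ⟨l, hl⟩ := D.tame b hbS hb0
  have h3 : IsU D.V (D.p ^ (i - j - l * ℓ)) := by
    have h4 : D.p ^ (i - j - l * ℓ) =
        (b / D.p ^ l) ^ ℓ / ((c / D.p ^ i) / (d / D.p ^ j)) := by
      have hpi : D.p ^ i ≠ 0 := zpow_ne_zero _ D.p0
      have hpj : D.p ^ j ≠ 0 := zpow_ne_zero _ D.p0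
      have hpl : D.p ^ l ≠ 0 := zpow_ne_zero _ D.p0
      rw [zpow_sub₀ D.p0, zpow_sub₀ D.p0, zpow_mul, zpow_natCast, div_pow, hbℓ]
      field_simp
    rw [h4]
    exact (hl.pow ℓ).div (hc.div hd)
  have h5 := zpow_isU D.pn h3
  have h6 : i - j = l * ℓ := by omega
  have h7 : ((i - j : ℤ) : ZMod ℓ) = 0 := by
    rw [ZMod.intCast_zmod_eq_zero_iff_dvd]
    exact ⟨l, by rw [h6]; ring⟩
  rw [Int.cast_sub, sub_eq_zero] at h7
  exact h7

/-- **Kummer theory** -/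
lemma exists_par [CharZero k] [IsAlgClosed A] [Algebra.IsAlgebraic k A] (hℓ : 0 < ℓ) {u : M}
    (hu : u ∈ D.RS) (h0 : u ≠ 0) {α : M} (hα : α ^ ℓ = u) : ∃ j, D.Par ℓ u j := by
  have : IsAlgClosure k A := ⟨inferInstance, inferInstance⟩
  have : Normal k A := IsAlgClosure.normal k A
  have hα0 : α ≠ 0 := by
    rintro rfl
    rw [zero_pow hℓ.ne'] at hα
    exact h0 hα.symm
  obtain ⟨E, hE, hE'⟩ := D.cont α
  obtain ⟨b, hb0, hb⟩ := exists_fixed_multiple D.s D.ι D.hι D.S.fixingSubgroup α hα0 (by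
    intro σ hσ
    have h1 : (D.s σ α / α) ^ ℓ = D.ι 1 := by
      rw [div_pow, ← map_pow, hα, hu σ hσ, div_self h0, map_one]
    obtain ⟨ζ, hζ⟩ := root_mem D.ι hℓ h1
    exact ⟨ζ, by rw [hζ, div_mul_cancel₀ _ hα0]⟩) E hE'
  have hb1 : D.ι b * α ∈ D.RS := hb
  have hbN : b ^ ℓ ∈ D.S := by
    apply D.mem_of_ι
    have h1 : D.ι (b ^ ℓ) = (D.ι b * α) ^ ℓ / u := by
      rw [mul_pow, map_pow, hα, mul_div_cancel_right₀ _ h0]
    rw [h1]
    exact div_mem (pow_mem hb1 _) hu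
  obtain ⟨i, hi⟩ := D.tame _ hbN (pow_ne_zero _ hb0)
  refine ⟨-i, (b ^ ℓ)⁻¹, inv_mem hbN, ?_, D.ι b * α, hb1,
    mul_ne_zero ((_root_.map_ne_zero _).2 hb0) hα0, ?_⟩
  · have h1 : (b ^ ℓ)⁻¹ / D.p ^ (-i) = (b ^ ℓ / D.p ^ i)⁻¹ := by
      rw [zpow_neg, inv_div, div_inv_eq_mul, mul_comm, ← div_eq_mul_inv]
    rw [h1]
    exact hi.inv
  · have hb0' : D.ι b ^ ℓ ≠ 0 := pow_ne_zero _ ((_root_.map_ne_zero _).2 hb0)
    rw [map_inv₀, map_pow, mul_pow, hα]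
    field_simp

end TDat

/-- invariant functions on a permutation all of whose cycles have length divisible by `ℓ` -/
lemma sum_invariant {X : Type*} [Fintype X] (ℓ : ℕ) [Fact ℓ.Prime] (π : Equiv.Perm X)
    (hπ : ∀ (x : X) (i : ℕ), (π ^ i) x = x → ℓ ∣ i) (h : X → ZMod ℓ) (hh : ∀ x, h (π x) = h x) :
    ∑ x, h x = 0 := by
  classical
  have hℓ := (Fact.out : ℓ.Prime)
  have hfib : ∀ r : ZMod ℓ, ((Finset.univ.filter fun x => h x = r).card : ZMod ℓ) = 0 := by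
    intro r
    let Y := {x : X // h x = r}
    let π' : Equiv.Perm Y := π.subtypePerm (fun x => by
      change h (π x) = r ↔ h x = r
      rw [hh])
    have hπ1 : ∀ y : Y, ((π' y : Y) : X) = π y := fun y => rfl
    have hπ' : ∀ (i : ℕ) (y : Y), (((π' ^ i) y : Y) : X) = (π ^ i) y := by
      intro i
      induction i with
      | zero => exact fun y => rfl
      | succ n ih =>
        intro y
        rw [pow_succ', pow_succ', Equiv.Perm.mul_apply, Equiv.Perm.mul_apply, hπ1, ih]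
    obtain ⟨a, b, hb, hab⟩ := Nat.exists_eq_pow_mul_and_not_dvd (orderOf_pos π').ne' ℓ hℓ.ne_one
    have h1 : (π' ^ b) ^ ℓ ^ a = 1 := by
      rw [← pow_mul, mul_comm, ← hab, pow_orderOf_eq_one]
    have h2 := Equiv.Perm.card_fixedPoints_modEq (f := (⇑(π' ^ b) : Function.End Y)) (p := ℓ)
      (n := a) (by
        have h3 : (MulAction.toEndHom (M := Equiv.Perm Y) (α := Y)) ((π' ^ b) ^ ℓ ^ a) = 1 := by
          rw [h1, map_one]
        rw [map_pow] at h3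
        exact h3)
    have h4 : Fintype.card (Function.fixedPoints (⇑(π' ^ b))) = 0 := by
      rw [Fintype.card_eq_zero_iff]
      refine ⟨fun ⟨y, hy⟩ => hb (hπ y b ?_)⟩
      rw [← hπ']
      exact congrArg Subtype.val hy
    have h5 : Fintype.card Y = (Finset.univ.filter fun x => h x = r).card :=
      Fintype.card_subtype _
    rw [← h5, ZMod.natCast_eq_zero_iff, ← Nat.modEq_zero_iff_dvd]
    refine h2.trans ?_
    have h6 : Fintype.card ↑(Function.fixedPoints (⇑(π' ^ b))) = 0 := h4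
    convert Nat.ModEq.refl (n := ℓ) 0 using 1
  have h1 : ∑ x, h x = ∑ r : ZMod ℓ, ∑ x ∈ Finset.univ.filter (fun x => h x = r), h x :=
    (Finset.sum_fiberwise Finset.univ h h).symm
  rw [h1]
  refine Finset.sum_eq_zero fun r _ => ?_
  rw [Finset.sum_congr rfl (g := fun _ => r) (fun x hx => (Finset.mem_filter.1 hx).2),
    Finset.sum_const, nsmul_eq_mul, hfib, zero_mul]

/-- the combinatorial lemma -/
lemma sum_weights {X : Type*} [Fintype X] (ℓ : ℕ) [Fact ℓ.Prime] (hodd : ℓ ≠ 2)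
    (π : Equiv.Perm X) (hπ : ∀ (x : X) (i : ℕ), (π ^ i) x = x → ℓ ∣ i) (e j : X → ZMod ℓ)
    (he : ∀ x, e (π x) = e x) (δ : ZMod ℓ) (hj : ∀ x, j (π x) = j x + δ) :
    ∑ x, e x * j x = 0 := by
  have hℓ := (Fact.out : ℓ.Prime)
  by_cases hδ : δ = 0
  · refine sum_invariant ℓ π hπ _ fun x => ?_
    rw [he, hj, hδ, add_zero]
  · have h0 : ∑ x, e x = 0 := sum_invariant ℓ π hπ _ he
    have h1 : ∑ x, e x * j x ^ 2 = ∑ x, e (π x) * j (π x) ^ 2 :=
      (Equiv.sum_comp π (fun x => e x * j x ^ 2)).symm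
    have h2 : ∑ x, e (π x) * j (π x) ^ 2 =
        ∑ x, e x * j x ^ 2 + 2 * δ * ∑ x, e x * j x + δ ^ 2 * ∑ x, e x := by
      rw [Finset.mul_sum, Finset.mul_sum, ← Finset.sum_add_distrib, ← Finset.sum_add_distrib]
      refine Finset.sum_congr rfl fun x _ => ?_
      rw [he, hj]
      ring
    rw [← h1, h0, mul_zero, add_zero] at h2
    have h3 : 2 * δ * ∑ x, e x * j x = 0 := by linear_combination -h2
    have h4 : (2 : ZMod ℓ) ≠ 0 := by
      intro h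
      have h5 : ((2 : ℕ) : ZMod ℓ) = 0 := by exact_mod_cast h
      rw [ZMod.natCast_eq_zero_iff] at h5
      exact hodd ((Nat.prime_dvd_prime_iff_eq hℓ Nat.prime_two).1 h5)
    exact (mul_eq_zero.1 h3).resolve_left (mul_ne_zero h4 hδ)

namespace TDat

variable {k A M : Type*} [Field k] [Field A] [Field M] [Algebra k A] (D : TDat k A M)

/-- **The main argument.** -/
theorem abs [CharZero k] [IsAlgClosed A] [Algebra.IsAlgebraic k A] (ℓ : ℕ) (hℓ : ℓ.Prime)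
    (hodd : ℓ ≠ 2) {X : Type*} [Fintype X] (θ : X → A) (hθS : ∀ i, θ i ∈ D.S)
    (π : Equiv.Perm X) (hπ : ∀ i, D.φ (θ i) = θ (π i))
    (hcyc : ∀ (x : X) (i : ℕ), (π ^ i) x = x → ℓ ∣ i) (e : X → ℕ) (he : ∀ i, e (π i) = e i)
    (x y : M) (hx : ∀ σ, D.s σ x = x) (hy : ∀ σ, D.s σ y = y) (c : A) (hcS : c ∈ D.S) (m : ℤ)
    (hm : ¬ (ℓ : ℤ) ∣ m) (hc : IsU D.V (c / D.p ^ m))
    (hxy : D.ι c * y ^ ℓ = ∏ i, (x - D.ι (θ i)) ^ (e i)) (hne : ∀ i, x ≠ D.ι (θ i))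
    (hroot : ∀ i i', ∃ α : M, α ^ ℓ = (x - D.ι (θ i)) / (x - D.ι (θ i'))) : False := by
  classical
  have : Fact ℓ.Prime := ⟨hℓ⟩
  have hℓ0 : 0 < ℓ := hℓ.pos
  have hxR : x ∈ D.RS := fun σ _ => hx σ
  have hyR : y ∈ D.RS := fun σ _ => hy σ
  have hmem : ∀ i, x - D.ι (θ i) ∈ D.RS := fun i => sub_mem hxR (D.ι_mem (hθS i))
  have hne0 : ∀ i, x - D.ι (θ i) ≠ 0 := fun i => sub_ne_zero.2 (hne i)
  have hprod0 : ∏ i, (x - D.ι (θ i)) ^ (e i) ≠ 0 :=
    Finset.prod_ne_zero_iff.2 fun i _ => pow_ne_zero _ (hne0 i)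
  have hy0 : y ≠ 0 := by
    rintro rfl
    rw [zero_pow hℓ0.ne', mul_zero] at hxy
    exact hprod0 hxy.symm
  apply hm
  rw [← ZMod.intCast_zmod_eq_zero_iff_dvd]
  rcases isEmpty_or_nonempty X with hX | ⟨⟨i0⟩⟩
  · have h1 : D.Par ℓ (D.ι c * y ^ ℓ) (m + 0) := (Par.const hcS hc).mul (Par.powℓ hyR hy0)
    have h2 : D.Par ℓ (D.ι c * y ^ ℓ) 0 := by
      rw [hxy, Fintype.prod_empty]
      exact Par.one
    have h3 := Par.unique hℓ0 h1 h2
    rw [add_zero, Int.cast_zero] at h3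
    exact h3
  · have hpar : ∀ i, ∃ j, D.Par ℓ ((x - D.ι (θ i)) / (x - D.ι (θ i0))) j := by
      intro i
      obtain ⟨α, hα⟩ := hroot i i0
      exact exists_par hℓ0 (div_mem (hmem i) (hmem i0)) (div_ne_zero (hne0 i) (hne0 i0)) hα
    choose N hN using hpar
    have hstep : ∀ i, ((N (π i) : ZMod ℓ)) = N i + N (π i0) := by
      intro i
      have h1 := (hN i).map_φ
      rw [map_div₀, map_sub, map_sub, hx, D.hι, D.hι, hπ, hπ] at h1
      have h2 := (hN (π i)).div (hN (π i0))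
      rw [div_div_div_cancel_right₀ (hne0 i0)] at h2
      have h3 := Par.unique hℓ0 h1 h2
      rw [Int.cast_sub] at h3
      rw [h3]
      ring
    have hsum : ∑ i, ((e i : ℕ) : ZMod ℓ) * (N i : ZMod ℓ) = 0 :=
      sum_weights ℓ hodd π hcyc _ _ (fun i => by rw [he]) _ hstep
    have hdeg : ∑ i, ((e i : ℕ) : ZMod ℓ) = 0 :=
      sum_invariant ℓ π hcyc _ (fun i => by rw [he])
    rw [← Nat.cast_sum, ZMod.natCast_eq_zero_iff] at hdeg
    obtain ⟨d, hd⟩ := hdeg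
    have h1 : D.Par ℓ (∏ i, ((x - D.ι (θ i)) / (x - D.ι (θ i0))) ^ (e i))
        (∑ i, (e i : ℤ) * N i) := Par.prod _ _ _ fun i _ => (hN i).pow (e i)
    have h2 : ∏ i, ((x - D.ι (θ i)) / (x - D.ι (θ i0))) ^ (e i) =
        D.ι c * (y / (x - D.ι (θ i0)) ^ d) ^ ℓ := by
      have h3 : ∏ i, ((x - D.ι (θ i)) / (x - D.ι (θ i0))) ^ (e i) =
          (∏ i, (x - D.ι (θ i)) ^ (e i)) / (x - D.ι (θ i0)) ^ (∑ i, e i) := by
        rw [← Finset.prod_pow_eq_pow_sum, ← Finset.prod_div_distrib]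
        exact Finset.prod_congr rfl fun i _ => div_pow _ _ _
      rw [h3, ← hxy, hd, div_pow, ← pow_mul, mul_comm d ℓ, mul_div_assoc]
    have h4 : D.Par ℓ (∏ i, ((x - D.ι (θ i)) / (x - D.ι (θ i0))) ^ (e i)) (m + 0) := by
      rw [h2]
      exact (Par.const hcS hc).mul (Par.powℓ (div_mem hyR (pow_mem (hmem i0) d))
        (div_ne_zero hy0 (pow_ne_zero _ (hne0 i0))))
    have h5 := Par.unique hℓ0 h4 h1
    rw [add_zero, Int.cast_sum] at h5
    rw [h5, ← hsum]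
    refine Finset.sum_congr rfl fun i _ => ?_
    push_cast
    rfl

end TDat

end Pool.Agent.TH120.Sec
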