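import Mathlib

/-!
# Binomials without roots over finite fields
-/

set_option autoImplicit false

namespace Pool.Agent.TH120.Sec

open Polynomial

universe u

variable {κ : Type u} [Field κ] [Finite κ]

/-- elements fixed by Frobenius are in the base field -/
lemma mem_base {E : Type*} [Field E] [Algebra κ E] (x : E) (hx : x ^ Nat.card κ = x) :
    ∃ r : κ, algebraMap κ E r = x := by
  classical
  have := Fintype.ofFinite κ
  set q := Nat.card κ with hq
  have hcard : Fintype.card κ = q := by rw [hq, Nat.card_eq_fintype_card]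
  have hs : (X ^ q - X : κ[X]).Splits := by
    rw [splits_iff_card_roots, ← hcard, FiniteField.roots_X_pow_card_sub_X,
      FiniteField.X_pow_card_sub_X_natDegree_eq _ Fintype.one_lt_card]
    rfl
  have hne : (X ^ q - X : κ[X]) ≠ 0 := by
    rw [← hcard]
    exact FiniteField.X_pow_card_sub_X_ne_zero _ Fintype.one_lt_card
  exact hs.mem_range_of_isRoot (i := algebraMap κ E) (x := x) hne (by
    simp [hx])

lemma pow_card_base {E : Type*} [Field E] [Algebra κ E] (r : κ) :
    (algebraMap κ E r) ^ Nat.card κ = algebraMap κ E r := by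
  have := Fintype.ofFinite κ
  rw [← map_pow, Nat.card_eq_fintype_card, FiniteField.pow_card]

lemma binom_coprime (ℓ : ℕ) (hℓ : ℓ.Prime) (hd : ℓ ∣ Nat.card κ - 1) (b c : κ)
    (hb : b ≠ 0) (h : ∀ r, b * r ^ ℓ + c ≠ 0) (n : ℕ) (hn : ¬ ℓ ∣ n) :
    IsCoprime (X ^ (Nat.card κ ^ n) - X) (C b * X ^ ℓ + C c) := by
  classical
  set q := Nat.card κ with hq
  have hq1 : 1 < q := by
    rw [hq]
    exact Finite.one_lt_card
  rw [isCoprime_iff_aeval_ne_zero_of_isAlgClosed κ (AlgebraicClosure κ)]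
  intro x
  by_contra hx
  push Not at hx
  obtain ⟨hx1, hx2⟩ := hx
  simp only [map_sub, map_pow, aeval_X, map_add, map_mul, aeval_C] at hx1 hx2
  rw [sub_eq_zero] at hx1
  have hb0 : algebraMap κ (AlgebraicClosure κ) b ≠ 0 := (_root_.map_ne_zero _).2 hb
  have hc0 : c ≠ 0 := by
    have := h 0
    rw [zero_pow hℓ.ne_zero, mul_zero, zero_add] at this
    exact this
  have hxℓ : x ^ ℓ = algebraMap κ (AlgebraicClosure κ) (-c / b) := by
    rw [map_div₀, map_neg, eq_div_iff hb0]
    linear_combination hx2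
  have hx0 : x ≠ 0 := by
    rintro rfl
    rw [zero_pow hℓ.ne_zero, mul_zero, zero_add] at hx2
    exact hc0 ((_root_.map_eq_zero _).1 hx2)
  -- the root of unity
  set ζ := x ^ (q - 1) with hζ
  have hζℓ : ζ ^ ℓ = 1 := by
    have h1 : (x ^ ℓ) ^ q = x ^ ℓ := by
      rw [hxℓ]
      exact pow_card_base _
    have h2 : (x ^ ℓ) ^ (q - 1) * x ^ ℓ = 1 * x ^ ℓ := by
      rw [← pow_succ, Nat.sub_add_cancel hq1.le, h1, one_mul]
    have h3 := mul_right_cancel₀ (pow_ne_zero ℓ hx0) h2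
    rw [hζ, ← pow_mul, mul_comm, pow_mul]
    exact h3
  have hζq : ζ ^ q = ζ := by
    obtain ⟨k, hk⟩ := hd
    have h1 : ζ ^ (q - 1) = 1 := by rw [hk, pow_mul, hζℓ, one_pow]
    have h2 : ζ ^ q = ζ ^ (q - 1) * ζ := by
      rw [← pow_succ, Nat.sub_add_cancel hq1.le]
    rw [h2, h1, one_mul]
  have hxq : x ^ q = ζ * x := by
    rw [hζ, ← pow_succ, Nat.sub_add_cancel hq1.le]
  have hpow : ∀ m : ℕ, x ^ (q ^ m) = ζ ^ m * x := by
    intro m
    induction m with
    | zero => rw [pow_zero, pow_one, pow_zero, one_mul]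
    | succ m ih =>
      have h1 : (ζ ^ m) ^ q = ζ ^ m := by
        rw [← pow_mul, mul_comm, pow_mul, hζq]
      rw [pow_succ, pow_mul, ih, mul_pow, h1, hxq]
      ring
  have h1 : ζ ^ n = 1 := by
    have h2 := hpow n
    rw [hx1] at h2
    have h3 : ζ ^ n * x = 1 * x := by rw [← h2, one_mul]
    exact mul_right_cancel₀ hx0 h3
  have h2 : ζ = 1 := by
    have h3 : orderOf ζ ∣ ℓ := orderOf_dvd_of_pow_eq_one hζℓ
    have h4 : orderOf ζ ∣ n := orderOf_dvd_of_pow_eq_one h1
    rcases (Nat.dvd_prime hℓ).1 h3 with h5 | h5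
    · exact orderOf_eq_one_iff.1 h5
    · rw [h5] at h4
      exact absurd h4 hn
  rw [h2, one_mul] at hxq
  obtain ⟨r, hr⟩ := mem_base x hxq
  apply h r
  apply (algebraMap κ (AlgebraicClosure κ)).injective
  rw [map_add, map_mul, map_pow, hr, map_zero]
  exact hx2

lemma binom_separable (m : ℕ) (hm : (m : κ) ≠ 0) (b c : κ) (hb : b ≠ 0) (hc : c ≠ 0) :
    (C b * X ^ m + C c).Separable := by
  have h1 : C b * X ^ m + C c = C b * (X ^ m - C (-c / b)) := by
    rw [mul_sub, ← C_mul, mul_div_cancel₀ _ hb, C_neg, sub_neg_eq_add]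
  rw [h1]
  refine Separable.unit_mul (isUnit_C.2 hb.isUnit) ?_
  exact separable_X_pow_sub_C _ hm (div_ne_zero (neg_ne_zero.2 hc) hb)

end Pool.Agent.TH120.Sec
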