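import Pool.Agent.TH120.Sec.Prime
import Pool.Agent.TH120.Sec.Binom
import Pool.Agent.W623.SecC.Prime

/-!
# The local theorem for `a yⁿ = b xᵐ + c`
-/

set_option autoImplicit false

namespace Pool.Agent.TH120.Sec

open Pool.Agent.W620.SC Pool.Agent.W623.SecC Polynomial NumberField IsDedekindDomain

universe u v w

/-- the binomial -/
noncomputable def bin {R : Type u} [CommRing R] (m : ℕ) (b c : R) : R[X] := C b * X ^ m + C c

lemma bin_natDegree {R : Type u} [CommRing R] (m : ℕ) (hm : 0 < m) (b c : R) (hb : b ≠ 0) :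
    (bin m b c).natDegree = m := by
  unfold bin
  rw [natDegree_add_C, natDegree_C_mul_X_pow m b hb]

lemma bin_leadingCoeff {R : Type u} [CommRing R] (m : ℕ) (hm : 0 < m) (b c : R) (hb : b ≠ 0) :
    (bin m b c).leadingCoeff = b := by
  rw [leadingCoeff, bin_natDegree m hm b c hb]
  unfold bin
  rw [coeff_add, coeff_C_mul_X_pow, if_pos rfl, coeff_C, if_neg hm.ne', add_zero]

lemma bin_map {R : Type u} {S : Type v} [CommRing R] [CommRing S] (f : R →+* S) (m : ℕ)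
    (b c : R) : (bin m b c).map f = bin m (f b) (f c) := by
  unfold bin
  rw [Polynomial.map_add, Polynomial.map_mul, Polynomial.map_pow, map_X, map_C, map_C]

variable {K : Type u} [Field K] [NumberField K] (v : HeightOneSpectrum (𝓞 K))

section odd

variable (ℓ : ℕ) (hℓ : ℓ.Prime) (hodd : ℓ ≠ 2) (hd : ℓ ∣ Ideal.absNorm v.asIdeal - 1)
  (a b c : 𝓞 K) (ha : a ∈ v.asIdeal) (ha' : a ∉ v.asIdeal ^ 2) (hb : b ∉ v.asIdeal)
  (h : ∀ r : 𝓞 K, b * r ^ ℓ + c ∉ v.asIdeal)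

include hℓ hd hb h

lemma bin_data : (bin ℓ b c).leadingCoeff ∉ v.asIdeal ∧
    ((bin ℓ b c).map (Ideal.Quotient.mk v.asIdeal)).Separable ∧
    ∀ n : ℕ, ¬ ℓ ∣ n → IsCoprime (X ^ (Ideal.absNorm v.asIdeal ^ n) - X)
      ((bin ℓ b c).map (Ideal.Quotient.mk v.asIdeal)) := by
  have hmax : v.asIdeal.IsMaximal := v.isMaximal
  have hfin' : Finite (𝓞 K ⧸ v.asIdeal) := Ideal.finiteQuotientOfFreeOfNeBot _ v.ne_bot
  let _ : Field (𝓞 K ⧸ v.asIdeal) := Ideal.Quotient.field _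
  have hb0 : b ≠ 0 := by
    rintro rfl
    exact hb (zero_mem _)
  have hcard : Nat.card (𝓞 K ⧸ v.asIdeal) = Ideal.absNorm v.asIdeal := by
    rw [Ideal.absNorm_apply, Submodule.cardQuot_apply]
  have hbq : Ideal.Quotient.mk v.asIdeal b ≠ 0 := by
    rwa [Ne, Ideal.Quotient.eq_zero_iff_mem]
  have hq : ∀ r : 𝓞 K ⧸ v.asIdeal,
      Ideal.Quotient.mk v.asIdeal b * r ^ ℓ + Ideal.Quotient.mk v.asIdeal c ≠ 0 := by
    intro r
    obtain ⟨r, rfl⟩ := Ideal.Quotient.mk_surjective r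
    rw [← map_pow, ← map_mul, ← map_add, Ne, Ideal.Quotient.eq_zero_iff_mem]
    exact h r
  have hcq : Ideal.Quotient.mk v.asIdeal c ≠ 0 := by
    have := hq 0
    rwa [zero_pow hℓ.ne_zero, mul_zero, zero_add] at this
  have hℓq : ((ℓ : ℕ) : 𝓞 K ⧸ v.asIdeal) ≠ 0 := by
    intro h0
    have := Fintype.ofFinite (𝓞 K ⧸ v.asIdeal)
    obtain ⟨p, hp⟩ := CharP.exists (𝓞 K ⧸ v.asIdeal)
    obtain ⟨n, hpp, hn⟩ := FiniteField.card (𝓞 K ⧸ v.asIdeal) p
    rw [CharP.cast_eq_zero_iff (𝓞 K ⧸ v.asIdeal) p] at h0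
    have hpℓ : p = ℓ := (Nat.prime_dvd_prime_iff_eq hpp hℓ).1 h0
    have hN : Ideal.absNorm v.asIdeal = p ^ (n : ℕ) := by
      rw [← hcard, Nat.card_eq_fintype_card, hn]
    rw [hN, ← hpℓ] at hd
    have h2 : p ∣ p ^ (n : ℕ) := dvd_pow_self p n.ne_zero
    have h3 : 1 ≤ p ^ (n : ℕ) := Nat.one_le_pow _ _ hpp.pos
    have h4 : p ∣ 1 := by
      have := (Nat.dvd_sub h2 hd)
      rwa [Nat.sub_sub_self h3] at this
    exact hpp.one_lt.ne' (Nat.dvd_one.1 h4)
  refine ⟨?_, ?_, ?_⟩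
  · rw [bin_leadingCoeff ℓ hℓ.pos b c hb0]
    exact hb
  · rw [bin_map]
    exact binom_separable ℓ hℓq _ _ hbq hcq
  · intro n hn
    rw [bin_map, ← hcard]
    exact binom_coprime ℓ hℓ (by rw [hcard]; exact hd) _ _ hbq hq n hn

include hodd ha ha'

theorem diag_odd_section {F : Type v} {Ω : Type w} [Field F] [Field Ω] [Algebra K F]
    [Algebra F Ω] [Algebra K Ω] [IsScalarTower K F Ω] [IsAlgClosed Ω] [Algebra.IsAlgebraic F Ω]
    (U : Set (ValuationSubring F)) (hU : ∀ O ∈ U, ∀ c : K, algebraMap K F c ∈ O)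
    (x y : F) (hxy : algebraMap K F a * y ^ ℓ = algebraMap K F b * x ^ ℓ + algebraMap K F c) :
    IsEmpty (GSection K F Ω U) := by
  obtain ⟨h1, h2, h3⟩ := bin_data v ℓ hℓ hd b c hb h
  refine prime_odd_section v ℓ hℓ hodd (fun _ : Unit => bin ℓ b c) (fun _ => 1)
    (fun _ => hℓ.one_lt.ne' ∘ Nat.dvd_one.1) (fun _ => h1) (by simpa using h2)
    (by simpa using h3) a 1 (hℓ.one_lt.ne' ∘ Nat.dvd_one.1) (by rwa [pow_one]) ha' U hU x y ?_
  rw [hxy, Finset.univ_unique, Finset.prod_singleton, pow_one, bin_map]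
  unfold bin
  rw [map_add, map_mul, map_pow, aeval_X, aeval_C, aeval_C]

theorem diag_odd_point (x y : K) : (a : K) * y ^ ℓ ≠ b * x ^ ℓ + c := by
  obtain ⟨h1, h2, h3⟩ := bin_data v ℓ hℓ hd b c hb h
  intro hxy
  refine prime_odd_point v ℓ hℓ hodd (fun _ : Unit => bin ℓ b c) (fun _ => 1)
    (fun _ => hℓ.one_lt.ne' ∘ Nat.dvd_one.1) (fun _ => h1) (by simpa using h2)
    (by simpa using h3) a 1 (hℓ.one_lt.ne' ∘ Nat.dvd_one.1) (by rwa [pow_one]) ha' x y ?_
  rw [Finset.univ_unique, Finset.prod_singleton, pow_one, bin_map]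
  unfold bin
  rw [eval_add, eval_mul, eval_pow, eval_X, eval_C, eval_C]
  exact hxy

omit h in
theorem odd_infinite (r : K) : (a : K) * r ^ ℓ ≠ b := by
  intro hr
  have hbp : b ^ (ℓ - 1) ∉ v.asIdeal := fun h => hb (v.isPrime.mem_of_pow_mem _ h)
  have hmax : v.asIdeal.IsMaximal := v.isMaximal
  have hb0 : (b : K) ≠ 0 := by
    intro h0
    apply hb
    have : b = 0 := RingOfIntegers.coe_injective h0
    rw [this]
    exact zero_mem _
  refine prime_odd_point v ℓ hℓ hodd (fun i : Empty => i.elim) (fun _ => 1)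
    (fun _ => hℓ.one_lt.ne' ∘ Nat.dvd_one.1) (fun i => i.elim) (by simp)
    (fun n _ => by
      rw [Finset.univ_eq_empty, Finset.prod_empty, Polynomial.map_one]
      exact isCoprime_one_right) (a * b ^ (ℓ - 1)) 1 (hℓ.one_lt.ne' ∘ Nat.dvd_one.1)
    (by rw [pow_one]; exact Ideal.mul_mem_right _ _ ha) ?_ 0 (r / b) ?_
  · intro h1
    rw [mul_comm] at h1
    rcases Ideal.IsMaximal.mul_mem_pow _ h1 with h2 | h2
    · exact hbp h2
    · exact ha' h2
  · simp only [Finset.univ_eq_empty, Finset.prod_empty, Polynomial.map_one, eval_one]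
    have h1 : algebraMap (𝓞 K) K (a * b ^ (ℓ - 1)) = (a : K) * (b : K) ^ (ℓ - 1) := by
      rw [map_mul, map_pow]
    have h2 : (b : K) ^ ℓ = (b : K) ^ (ℓ - 1) * b := by
      rw [← pow_succ, Nat.sub_add_cancel hℓ.one_lt.le]
    rw [h1, div_pow, h2]
    have hbp0 : (b : K) ^ (ℓ - 1) ≠ 0 := pow_ne_zero _ hb0
    field_simp
    exact hr

end odd

section even

variable (m : ℕ) (hm : 4 ≤ m) (hme : Even m) (h2 : (2 : 𝓞 K) ∉ v.asIdeal)
  (hmv : (m : 𝓞 K) ∉ v.asIdeal)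
  (a b c : 𝓞 K) (ha : a ∈ v.asIdeal) (ha' : a ∉ v.asIdeal ^ 2) (hb : b ∉ v.asIdeal)
  (h : ∀ r : 𝓞 K, b * r ^ 2 + c ∉ v.asIdeal)

include hm hme hmv hb h

lemma bin_data_even : (bin m b c).leadingCoeff ∉ v.asIdeal ∧
    ((bin m b c).map (Ideal.Quotient.mk v.asIdeal)).Separable ∧
    (∀ r : 𝓞 K ⧸ v.asIdeal, ((bin m b c).map (Ideal.Quotient.mk v.asIdeal)).eval r ≠ 0) ∧
    (bin m b c).natDegree = m := by
  have hmax : v.asIdeal.IsMaximal := v.isMaximal
  have hfin' : Finite (𝓞 K ⧸ v.asIdeal) := Ideal.finiteQuotientOfFreeOfNeBot _ v.ne_bot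
  let _ : Field (𝓞 K ⧸ v.asIdeal) := Ideal.Quotient.field _
  have hb0 : b ≠ 0 := by
    rintro rfl
    exact hb (zero_mem _)
  have hbq : Ideal.Quotient.mk v.asIdeal b ≠ 0 := by
    rwa [Ne, Ideal.Quotient.eq_zero_iff_mem]
  have hq : ∀ r : 𝓞 K ⧸ v.asIdeal,
      Ideal.Quotient.mk v.asIdeal b * r ^ 2 + Ideal.Quotient.mk v.asIdeal c ≠ 0 := by
    intro r
    obtain ⟨r, rfl⟩ := Ideal.Quotient.mk_surjective r
    rw [← map_pow, ← map_mul, ← map_add, Ne, Ideal.Quotient.eq_zero_iff_mem]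
    exact h r
  have hcq : Ideal.Quotient.mk v.asIdeal c ≠ 0 := by
    have := hq 0
    rwa [zero_pow two_ne_zero, mul_zero, zero_add] at this
  have hmq : ((m : ℕ) : 𝓞 K ⧸ v.asIdeal) ≠ 0 := by
    intro h0
    apply hmv
    rw [← Ideal.Quotient.eq_zero_iff_mem, map_natCast]
    exact h0
  refine ⟨?_, ?_, ?_, bin_natDegree m (by omega) b c hb0⟩
  · rw [bin_leadingCoeff m (by omega) b c hb0]
    exact hb
  · rw [bin_map]
    exact binom_separable m hmq _ _ hbq hcq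
  · intro r
    rw [bin_map]
    unfold bin
    rw [eval_add, eval_mul, eval_pow, eval_X, eval_C, eval_C]
    obtain ⟨n, rfl⟩ := hme
    have := hq (r ^ n)
    rwa [← pow_mul, mul_two] at this

include h2 ha ha'

theorem diag_even_section {F : Type v} {Ω : Type w} [Field F] [Field Ω] [Algebra K F]
    [Algebra F Ω] [Algebra K Ω] [IsScalarTower K F Ω] [IsAlgClosed Ω] [Algebra.IsAlgebraic F Ω]
    (U : Set (ValuationSubring F)) (hU : ∀ O ∈ U, ∀ c : K, algebraMap K F c ∈ O)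
    (x y : F) (hxy : algebraMap K F a * y ^ 2 = algebraMap K F b * x ^ m + algebraMap K F c) :
    IsEmpty (GSection K F Ω U) := by
  obtain ⟨h1, h3, h4, h5⟩ := bin_data_even v m hm hme hmv b c hb h
  refine prime_no_section v h2 (bin m b c) h1 h3 h4 a 1 odd_one (by rwa [pow_one]) ha'
    (by rwa [h5]) (by rwa [h5]) U hU x y ?_
  rw [hxy, bin_map]
  unfold bin
  rw [map_add, map_mul, map_pow, aeval_X, aeval_C, aeval_C]

theorem diag_even_point (x y : K) : (a : K) * y ^ 2 ≠ b * x ^ m + c := by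
  obtain ⟨h1, h3, h4, h5⟩ := bin_data_even v m hm hme hmv b c hb h
  intro hxy
  refine prime_no_point v h2 (bin m b c) h1 h3 h4 a 1 odd_one (by rwa [pow_one]) ha'
    (by rwa [h5]) x y ?_
  rw [bin_map]
  unfold bin
  rw [eval_add, eval_mul, eval_pow, eval_X, eval_C, eval_C]
  exact hxy

theorem even_infinite (r : K) : (a : K) * r ^ 2 ≠ b := by
  obtain ⟨h1, h3, h4, h5⟩ := bin_data_even v m hm hme hmv b c hb h
  have hb0 : b ≠ 0 := by
    rintro rfl
    exact hb (zero_mem _)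
  have := prime_no_infinite v h2 (bin m b c) h1 h3 h4 a 1 odd_one (by rwa [pow_one]) ha' r
  rwa [bin_leadingCoeff m (by omega) b c hb0] at this

end even

end Pool.Agent.TH120.Sec
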