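import Pool.Agent.TH120.Sec.Spec
import Pool.Agent.TH120.Sec.Supply
import Pool.Agent.TH120.Sec.ExL
import Pool.Agent.TH120.Sec.DiagCount

/-!
# Many good primes for a one-parameter family
-/

set_option autoImplicit false

namespace Pool.Agent.TH120.Sec

open Polynomial NumberField IsDedekindDomain
open Pool.Agent.W401.Cheb

universe u

variable {K : Type u} [Field K] [NumberField K]

/-- evaluation at `θ ∈ K̄` -/
noncomputable def evC (θ : AlgebraicClosure K) : (𝓞 K)[X] →+* AlgebraicClosure K :=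
  eval₂RingHom ((algebraMap K (AlgebraicClosure K)).comp (algebraMap (𝓞 K) K)) θ

/-- the global hypothesis on a family -/
def Spc (ℓ : ℕ) (g : (𝓞 K)[X]) (H : (𝓞 K)[X][X]) (θ : AlgebraicClosure K)
    (σ : AlgebraicClosure K ≃ₐ[K] AlgebraicClosure K) : Prop :=
  evC θ g = 0 ∧ evC θ g.derivative ≠ 0 ∧ evC θ H.leadingCoeff ≠ 0 ∧
    (H.map (evC θ)).Separable ∧ σ θ = θ ∧
    (∀ ρ, (H.map (evC θ)).eval ρ = 0 → σ ρ ≠ ρ) ∧
    (ℓ ≠ 2 → ∀ n : ℕ, ¬ ℓ ∣ n → ∀ ρ, (H.map (evC θ)).eval ρ = 0 → (σ^[n]) ρ ≠ ρ)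

theorem fam_supply (ℓ : ℕ) (g : (𝓞 K)[X]) (H : (𝓞 K)[X][X]) (θ : AlgebraicClosure K)
    (σ : AlgebraicClosure K ≃ₐ[K] AlgebraicClosure K) (hs : Spc ℓ g H θ σ) (ε : ℝ) (hε : 0 < ε) :
    ∃ T : Finset (HeightOneSpectrum (𝓞 K)),
      (∀ v ∈ T, ∃ t₀ : 𝓞 K, Cond v ℓ H.natDegree g H t₀) ∧
      ∏ v ∈ T, (1 - (1 : ℝ) * (1 / (Ideal.absNorm v.asIdeal : ℝ) -
        1 / (Ideal.absNorm v.asIdeal : ℝ) ^ 2)) < ε := by
  classical
  obtain ⟨hg, hg', hc, hsep, hσθ, hder, hcyc⟩ := hs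
  have hP0 : H.map (evC θ) ≠ 0 := hsep.ne_zero
  obtain ⟨L, _, _, _, i, τ, κ, hκi, hκτ, hκs⟩ := exists_L K
    (insert θ {ρ | (H.map (evC θ)).eval ρ = 0})
    ((Polynomial.finite_setOfPred_isRoot hP0).insert θ) σ
  obtain ⟨θL, hθL⟩ := hκs θ (Set.mem_insert _ _)
  have hκinj := κ.injective
  have hτi : ∀ x, τ (i x) = i x := by
    intro x
    apply hκinj
    rw [hκτ, hκi, AlgEquiv.commutes]
  have hτθ : τ θL = θL := by
    apply hκinj
    rw [hκτ, hθL, hσθ]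
  have hκev : κ.comp (evL i θL) = evC θ := by
    apply Polynomial.ringHom_ext
    · intro a
      simp only [RingHom.comp_apply, evL, evC, coe_eval₂RingHom, eval₂_C]
      exact hκi _
    · simp only [RingHom.comp_apply, evL, evC, coe_eval₂RingHom, eval₂_X]
      exact hθL
  have hκev' : ∀ q, κ (evL i θL q) = evC θ q := fun q => congrFun (congrArg DFunLike.coe hκev) q
  have hτev : (τ : L →+* L).comp (evL i θL) = evL i θL := by
    apply Polynomial.ringHom_ext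
    · intro a
      simp only [RingHom.comp_apply, evL, coe_eval₂RingHom, eval₂_C]
      exact hτi _
    · simp only [RingHom.comp_apply, evL, coe_eval₂RingHom, eval₂_X]
      exact hτθ
  set P := H.map (evL i θL) with hP
  have hPκ : P.map κ = H.map (evC θ) := by rw [hP, Polynomial.map_map, hκev]
  have hPsep : P.Separable := by rw [← separable_map κ, hPκ]; exact hsep
  have hPlc : P.leadingCoeff = evL i θL H.leadingCoeff := by
    apply leadingCoeff_map_of_leadingCoeff_ne_zero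
    intro h
    apply hc
    rw [← hκev', h, map_zero]
  have hPsp : P.Splits := by
    refine Splits.of_splits_map κ (IsAlgClosed.splits _) ?_
    intro a ha
    rw [hPκ] at ha
    obtain ⟨y, hy⟩ := hκs a (Set.mem_insert_of_mem _ (isRoot_of_mem_roots ha))
    exact ⟨y, hy⟩
  set S := P.roots.toFinset with hS
  have hPne : P ≠ 0 := hPsep.ne_zero
  have hmS : ∀ ρ, ρ ∈ S ↔ P.eval ρ = 0 := by
    intro ρ
    rw [hS, Multiset.mem_toFinset, mem_roots hPne]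
    rfl
  have hPprod : P = C (evL i θL H.leadingCoeff) * ∏ ρ ∈ S, (X - C ρ) := by
    conv_lhs => rw [hPsp.eq_prod_roots, hPlc]
    congr 1
    rw [hS, Finset.prod, Multiset.toFinset_val, (nodup_roots hPsep).dedup]
  have hSκ : ∀ ρ ∈ S, (H.map (evC θ)).eval (κ ρ) = 0 := by
    intro ρ hρ
    rw [← hPκ, eval_map_apply, (hmS ρ).1 hρ, map_zero]
  have hSτ : ∀ ρ ∈ S, τ ρ ∈ S := by
    intro ρ hρ
    rw [hmS] at hρ ⊢
    have h1 : P.map (τ : L →+* L) = P := by rw [hP, Polynomial.map_map, hτev]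
    have h2 : (P.map (τ : L →+* L)).eval ((τ : L →+* L) ρ) = 0 := by
      rw [eval_map_apply, hρ, map_zero]
    rw [h1] at h2
    exact h2
  have hκn : ∀ (n : ℕ) (ρ : L), κ ((τ^[n]) ρ) = (σ^[n]) (κ ρ) := by
    intro n
    induction n with
    | zero => intro ρ; rfl
    | succ n ih =>
      intro ρ
      rw [Function.iterate_succ_apply', Function.iterate_succ_apply', hκτ, ih]
  -- the controlled elements
  set Z : Finset L := ({θL, (evL i θL g.derivative)⁻¹, (evL i θL H.leadingCoeff)⁻¹} ∪ S) ∪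
    (S ×ˢ S).image (fun x => (x.1 - x.2)⁻¹) with hZ
  obtain ⟨E, hE, hctrl⟩ := exists_ctrl Z
  refine supply i τ hτi (E * 2) (mul_ne_zero hE two_ne_zero) _ ?_ 1 one_pos le_rfl ε hε
  intro p _ φ hφ hφE v hv hnorm hψ
  rw [map_mul] at hφE
  have hφE1 : φ E ≠ 0 := left_ne_zero_of_mul hφE
  have hφ2 : φ 2 ≠ 0 := right_ne_zero_of_mul hφE
  have hB : ∀ z ∈ Z, z ∈ BB φ := fun z hz => (hctrl _ φ hφE1 z hz).1
  have hBS : ∀ ρ ∈ S, ρ ∈ BB φ := by
    intro ρ hρ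
    apply hB
    rw [hZ]
    exact Finset.mem_union_left _ (Finset.mem_union_right _ hρ)
  refine place_cond i θL p φ τ hφ hτθ (hB θL (by simp [hZ])) v hv hnorm hψ ?_ ℓ g H ?_ ?_
    (hB _ (by simp [hZ])) ?_ (hB _ (by simp [hZ])) S hPprod hBS ?_ hSτ ?_ ?_
  · rw [hv]
    have : (RingOfIntegers.mapRingHom i) (2 : 𝓞 K) = 2 := map_ofNat _ 2
    rw [this]
    exact hφ2
  · apply hκinj
    rw [hκev', hg, map_zero]
  · intro h
    apply hg'
    rw [← hκev', h, map_zero]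
  · intro h
    apply hc
    rw [← hκev', h, map_zero]
  · intro ρ hρ ρ' hρ' hne
    apply hB
    rw [hZ]
    refine Finset.mem_union_right _ (Finset.mem_image.2 ⟨(ρ, ρ'), ?_, rfl⟩)
    exact Finset.mem_product.2 ⟨hρ, hρ'⟩
  · intro ρ hρ h
    apply hder (κ ρ) (hSκ ρ hρ)
    rw [← hκτ, h]
  · intro hℓ n hn ρ hρ h
    apply hcyc hℓ n hn (κ ρ) (hSκ ρ hρ)
    rw [← hκn, h]

/-! ### counting -/

variable (v : HeightOneSpectrum (𝓞 K))

/-- the good classes modulo `v ^ 2` -/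
def GoodF (ℓ : ℕ) (g : (𝓞 K)[X]) (H : (𝓞 K)[X][X]) : Set (Fin 1 → 𝓞 K ⧸ v.asIdeal ^ 2) :=
  {x | ∃ t₀ : 𝓞 K, Cond v ℓ H.natDegree g H t₀ ∧ pr v (x 0) = Ideal.Quotient.mk v.asIdeal t₀ ∧
    (g.map (Ideal.Quotient.mk (v.asIdeal ^ 2))).eval (x 0) ≠ 0}

lemma goodF_card (ℓ : ℕ) (g : (𝓞 K)[X]) (H : (𝓞 K)[X][X])
    (h : ∃ t₀ : 𝓞 K, Cond v ℓ H.natDegree g H t₀) :
    Ideal.absNorm v.asIdeal ≤ (GoodF v ℓ g H).ncard + 1 := by
  classical
  obtain ⟨t₀, ht₀⟩ := h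
  have hfin := finite_sq v
  have hvm : v.asIdeal.IsMaximal := v.isMaximal
  rw [← ker_ncard v]
  set J : Set (𝓞 K ⧸ v.asIdeal ^ 2) := {x | pr v x = 0} with hJ
  set gb := g.map (Ideal.Quotient.mk (v.asIdeal ^ 2)) with hgb
  set c : 𝓞 K ⧸ v.asIdeal ^ 2 := Ideal.Quotient.mk _ t₀ with hc
  -- at most one bad element
  have hone : ({x | x ∈ J ∧ gb.eval (c + x) = 0} : Set (𝓞 K ⧸ v.asIdeal ^ 2)).ncard ≤ 1 := by
    rw [Set.ncard_le_one_iff]
    intro x y hx hy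
    obtain ⟨a, rfl⟩ := Ideal.Quotient.mk_surjective x
    obtain ⟨b, rfl⟩ := Ideal.Quotient.mk_surjective y
    obtain ⟨hx1, hx2⟩ := hx
    obtain ⟨hy1, hy2⟩ := hy
    have hx1' : a ∈ v.asIdeal := by
      rw [← Ideal.Quotient.eq_zero_iff_mem, ← pr_mk]
      exact hx1
    have hy1' : b ∈ v.asIdeal := by
      rw [← Ideal.Quotient.eq_zero_iff_mem, ← pr_mk]
      exact hy1
    have hx2' : g.eval (t₀ + a) ∈ v.asIdeal ^ 2 := by
      rw [hc, ← map_add, hgb, eval_map_apply, Ideal.Quotient.eq_zero_iff_mem] at hx2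
      exact hx2
    have hy2' : g.eval (t₀ + b) ∈ v.asIdeal ^ 2 := by
      rw [hc, ← map_add, hgb, eval_map_apply, Ideal.Quotient.eq_zero_iff_mem] at hy2
      exact hy2
    obtain ⟨k, hk⟩ := binomExpansion g (t₀ + b) (a - b)
    have e1 : t₀ + b + (a - b) = t₀ + a := by ring
    rw [e1] at hk
    have hab : a - b ∈ v.asIdeal := sub_mem hx1' hy1'
    have h1 : g.derivative.eval (t₀ + b) * (a - b) ∈ v.asIdeal ^ 2 := by
      have e2 : g.derivative.eval (t₀ + b) * (a - b) =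
          g.eval (t₀ + a) - g.eval (t₀ + b) - k * (a - b) ^ 2 := by
        rw [hk]; ring
      rw [e2]
      exact sub_mem (sub_mem hx2' hy2') (Ideal.mul_mem_left _ _ (Ideal.pow_mem_pow hab 2))
    have h2 : g.derivative.eval (t₀ + b) ∉ v.asIdeal := by
      refine (ht₀ (t₀ + b) ?_).2.1
      rw [add_sub_cancel_left]
      exact hy1'
    rcases Ideal.IsMaximal.mul_mem_pow _ h1 with h3 | h3
    · exact absurd h3 h2
    · rw [Ideal.Quotient.eq]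
      exact h3
  have h2 : (J \ {x | x ∈ J ∧ gb.eval (c + x) = 0}).ncard ≤ (GoodF v ℓ g H).ncard := by
    refine Set.ncard_le_ncard_of_injOn (fun x _ => c + x) ?_ ?_ (Set.toFinite _)
    · rintro x ⟨hx1, hx2⟩
      refine ⟨t₀, ht₀, ?_, fun h => hx2 ⟨hx1, h⟩⟩
      change pr v (c + x) = _
      rw [map_add, show pr v x = 0 from hx1, add_zero, hc, pr_mk]
    · intro x _ y _ h
      have := congrFun h 0
      simpa using this
  have h3 : J.ncard ≤ ({x | x ∈ J ∧ gb.eval (c + x) = 0} : Set (𝓞 K ⧸ v.asIdeal ^ 2)).ncard +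
      (J \ {x | x ∈ J ∧ gb.eval (c + x) = 0}).ncard := by
    have := Set.ncard_le_ncard (s := J)
      (t := {x | x ∈ J ∧ gb.eval (c + x) = 0} ∪ (J \ {x | x ∈ J ∧ gb.eval (c + x) = 0}))
      (by intro x hx; by_cases h : gb.eval (c + x) = 0
          · exact Or.inl ⟨hx, h⟩
          · exact Or.inr ⟨hx, fun h' => h h'.2⟩) (Set.toFinite _)
    exact this.trans (Set.ncard_union_le _ _)
  omega

lemma badF_card (ℓ : ℕ) (g : (𝓞 K)[X]) (H : (𝓞 K)[X][X])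
    (h : ∃ t₀ : 𝓞 K, Cond v ℓ H.natDegree g H t₀) :
    (((GoodF v ℓ g H)ᶜ).ncard : ℝ) ≤ (1 - 1 * (1 / (Ideal.absNorm v.asIdeal : ℝ) -
      1 / (Ideal.absNorm v.asIdeal : ℝ) ^ 2)) * ((Ideal.absNorm v.asIdeal : ℝ) ^ 2) ^ 1 := by
  classical
  have hfin := finite_sq v
  have h1 := goodF_card v ℓ g H h
  have h2 : (GoodF v ℓ g H).ncard + ((GoodF v ℓ g H)ᶜ).ncard =
      (Ideal.absNorm v.asIdeal ^ 2) ^ 1 := by
    rw [Set.ncard_add_ncard_compl, Nat.card_fun, Pool.Agent.W417.SecC.D2.card_sq, Nat.card_fin]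
  set N := Ideal.absNorm v.asIdeal with hN
  have hN0 : (N : ℝ) ≠ 0 := Nat.cast_ne_zero.2 (Pool.Agent.W417.SecC.D2.norm_pos v).ne'
  have h3 : ((GoodF v ℓ g H).ncard : ℝ) + (((GoodF v ℓ g H)ᶜ).ncard : ℝ) = ((N : ℝ) ^ 2) ^ 1 := by
    exact_mod_cast h2
  have h4 : (N : ℝ) ≤ ((GoodF v ℓ g H).ncard : ℝ) + 1 := by exact_mod_cast h1
  have h5 : (1 - 1 * (1 / (N : ℝ) - 1 / (N : ℝ) ^ 2)) * ((N : ℝ) ^ 2) ^ 1 =
      ((N : ℝ) ^ 2) ^ 1 - N + 1 := by
    field_simp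
    ring
  rw [h5]
  linarith

/-- **Density zero** for one-parameter families -/
theorem fam_dz (ℓ : ℕ) (g : (𝓞 K)[X]) (H : (𝓞 K)[X][X]) (θ : AlgebraicClosure K)
    (σ : AlgebraicClosure K ≃ₐ[K] AlgebraicClosure K) (hs : Spc ℓ g H θ σ)
    (E : Set (𝓞 K)) (hE : ∀ t ∈ E, ∀ v : HeightOneSpectrum (𝓞 K),
      ¬ (g.eval t ∈ v.asIdeal ∧ g.eval t ∉ v.asIdeal ^ 2 ∧
        Loc v ℓ H.natDegree (H.map (evalRingHom t)))) :
    ∀ ε : ℝ, 0 < ε → ∃ I : Ideal (𝓞 K), I ≠ ⊥ ∧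
      (Set.ncard ((Ideal.Quotient.mk I) '' E) : ℝ) ≤ ε * Nat.card (𝓞 K ⧸ I) := by
  classical
  have h1 : DZ 1 {f : Fin 1 → 𝓞 K | f 0 ∈ E} := by
    refine dz_of_supply 1 (fun v => ∃ t₀ : 𝓞 K, Cond v ℓ H.natDegree g H t₀)
      (fun v => (GoodF v ℓ g H)ᶜ) 1 (fun ε hε => fam_supply ℓ g H θ σ hs ε hε)
      (fun v hv => badF_card v ℓ g H hv) _ ?_
    intro f hf v _ hgood
    obtain ⟨t₀, ht₀, h2, h3⟩ := hgood
    have h4 : f 0 - t₀ ∈ v.asIdeal := by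
      have h5 : Ideal.Quotient.mk v.asIdeal (f 0) = Ideal.Quotient.mk v.asIdeal t₀ := h2
      rwa [Ideal.Quotient.eq] at h5
    obtain ⟨h6, -, h7⟩ := ht₀ _ h4
    refine hE (f 0) hf v ⟨h6, ?_, h7⟩
    intro h8
    apply h3
    change (g.map (Ideal.Quotient.mk (v.asIdeal ^ 2))).eval (Ideal.Quotient.mk _ (f 0)) = 0
    rw [eval_map_apply, Ideal.Quotient.eq_zero_iff_mem]
    exact h8
  intro ε hε
  obtain ⟨I, hI, h2⟩ := h1 ε hε
  refine ⟨I, hI, ?_⟩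
  rw [pow_one] at h2
  refine le_trans ?_ h2
  have h3 : (fun f : Fin 1 → 𝓞 K ⧸ I => f 0) '' (red I 1 '' {f : Fin 1 → 𝓞 K | f 0 ∈ E}) =
      (Ideal.Quotient.mk I) '' E := by
    ext x
    constructor
    · rintro ⟨_, ⟨f, hf, rfl⟩, rfl⟩
      exact ⟨f 0, hf, rfl⟩
    · rintro ⟨t, ht, rfl⟩
      exact ⟨_, ⟨fun _ => t, ht, rfl⟩, rfl⟩
  have hfin : Finite (𝓞 K ⧸ I) := Ideal.finiteQuotientOfFreeOfNeBot _ hI
  rw [← h3]
  exact_mod_cast Set.ncard_image_le (Set.toFinite _)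

end Pool.Agent.TH120.Sec
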