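import Pool.Agent.TH120.Sec.Rat

/-!
# The Kummer argument for a Galois section and for a rational point
-/

set_option autoImplicit false

namespace Pool.Agent.TH120.Sec

open Pool.Agent.W620.SC Pool.Agent.W623.SecC Polynomial IntermediateField

universe u v w

/-- the data attached to a section -/
noncomputable def mkT {k : Type u} {F : Type v} {Ω : Type w} [Field k] [Field F] [Field Ω]
    [Algebra k F] [Algebra F Ω] [Algebra k Ω] [IsScalarTower k F Ω] [CharZero k] [IsAlgClosed Ω]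
    [Algebra.IsAlgebraic F Ω]
    (U : Set (ValuationSubring F)) (hU : ∀ O ∈ U, ∀ c : k, algebraMap k F c ∈ O)
    (G : GSection k F Ω U) (V : ValuationSubring (algebraicClosure k Ω))
    (S : IntermediateField k (algebraicClosure k Ω)) (ϖ : k) (ϖ0 : ϖ ≠ 0)
    (ϖn : algebraMap k (algebraicClosure k Ω) ϖ ∈ V.nonunits)
    (tame : ∀ c ∈ S, c ≠ 0 → ∃ j : ℤ, IsU V (c / algebraMap k (algebraicClosure k Ω) ϖ ^ j))
    (φ : algebraicClosure k Ω ≃ₐ[k] algebraicClosure k Ω) (φV : ∀ x, φ x ∈ V ↔ x ∈ V)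
    (φS : ∀ x, φ x ∈ S ↔ x ∈ S) : TDat k (algebraicClosure k Ω) (unramified F Ω U) where
  s := (toRingAutHom F (unramified F Ω U)).comp G.toHom
  ι := constHom hU
  hι := fun σ x => Subtype.ext (G.compat σ x (constHom hU x) rfl)
  cont := by
    intro w
    have h1 : {e : unramified F Ω U ≃ₐ[F] unramified F Ω U | e w = w} ∈
        nhds (1 : unramified F Ω U ≃ₐ[F] unramified F Ω U) := by
      rw [krullTopology_mem_nhds_one_iff]
      refine ⟨F⟮w⟯, ?_, ?_⟩
      · exact adjoin.finiteDimensional (Algebra.IsIntegral.isIntegral _)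
      · intro e he
        exact (mem_fixingSubgroup_iff _ _).1 he _ (mem_adjoin_simple_self F _)
    have h2 := G.cont.tendsto 1
    rw [map_one] at h2
    have h3 := h2 h1
    rw [Filter.mem_map, krullTopology_mem_nhds_one_iff] at h3
    obtain ⟨E, hE, hE'⟩ := h3
    exact ⟨E, hE, fun σ hσ => hE' hσ⟩
  S := S
  V := V
  p := algebraMap k (algebraicClosure k Ω) ϖ
  pS := S.algebraMap_mem _
  p0 := (_root_.map_ne_zero _).2 ϖ0
  pn := ϖn
  tame := tame
  φ := φ
  φp := φ.commutes ϖ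
  φV := φV
  φS := φS

/-- the data attached to a rational point -/
noncomputable def idT {k : Type u} {A : Type w} [Field k] [Field A] [Algebra k A]
    [Algebra.IsAlgebraic k A] (V : ValuationSubring A)
    (S : IntermediateField k A) (ϖ : k) (ϖ0 : ϖ ≠ 0)
    (ϖn : algebraMap k A ϖ ∈ V.nonunits)
    (tame : ∀ c ∈ S, c ≠ 0 → ∃ j : ℤ, IsU V (c / algebraMap k A ϖ ^ j))
    (φ : A ≃ₐ[k] A) (φV : ∀ x, φ x ∈ V ↔ x ∈ V)
    (φS : ∀ x, φ x ∈ S ↔ x ∈ S) : TDat k A A where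
  s := toRingAutHom k A
  ι := RingHom.id A
  hι := fun _ _ => rfl
  cont := fun w => ⟨k⟮w⟯, adjoin.finiteDimensional (Algebra.IsIntegral.isIntegral _),
    fun σ hσ => (mem_fixingSubgroup_iff _ _).1 hσ _ (mem_adjoin_simple_self k _)⟩
  S := S
  V := V
  p := algebraMap k A ϖ
  pS := S.algebraMap_mem _
  p0 := (_root_.map_ne_zero _).2 ϖ0
  pn := ϖn
  tame := tame
  φ := φ
  φp := φ.commutes ϖ
  φV := φV
  φS := φS

/-- no section -/
theorem gal {k : Type u} {F : Type v} {Ω : Type w} [Field k] [Field F] [Field Ω]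
    [Algebra k F] [Algebra F Ω] [Algebra k Ω] [IsScalarTower k F Ω] [CharZero k] [IsAlgClosed Ω]
    [Algebra.IsAlgebraic F Ω]
    (U : Set (ValuationSubring F)) (hU : ∀ O ∈ U, ∀ c : k, algebraMap k F c ∈ O)
    (G : GSection k F Ω U) (V : ValuationSubring (algebraicClosure k Ω))
    (S : IntermediateField k (algebraicClosure k Ω)) (ϖ : k) (ϖ0 : ϖ ≠ 0)
    (ϖn : algebraMap k (algebraicClosure k Ω) ϖ ∈ V.nonunits)
    (tame : ∀ c ∈ S, c ≠ 0 → ∃ j : ℤ, IsU V (c / algebraMap k (algebraicClosure k Ω) ϖ ^ j))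
    (φ : algebraicClosure k Ω ≃ₐ[k] algebraicClosure k Ω) (φV : ∀ x, φ x ∈ V ↔ x ∈ V)
    (φS : ∀ x, φ x ∈ S ↔ x ∈ S) (ℓ : ℕ) (hℓ : ℓ.Prime) (hodd : ℓ ≠ 2)
    {X : Type*} [Fintype X] (θ : X → algebraicClosure k Ω) (hθS : ∀ i, θ i ∈ S)
    (hθ : Function.Injective θ) (π : Equiv.Perm X) (hπ : ∀ i, φ (θ i) = θ (π i))
    (hcyc : ∀ (x : X) (i : ℕ), (π ^ i) x = x → ℓ ∣ i) (e : X → ℕ) (he : ∀ i, ¬ ℓ ∣ e i)
    (heπ : ∀ i, e (π i) = e i) (x y : F) (c : algebraicClosure k Ω) (hcS : c ∈ S) (m : ℤ)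
    (hm : ¬ (ℓ : ℤ) ∣ m) (hc : IsU V (c / algebraMap k (algebraicClosure k Ω) ϖ ^ m))
    (hxy : (c : Ω) * algebraMap F Ω y ^ ℓ = ∏ i, (algebraMap F Ω x - (θ i : Ω)) ^ (e i)) :
    False := by
  have hac : IsAlgClosure k (algebraicClosure k Ω) := inferInstance
  have hA : IsAlgClosed (algebraicClosure k Ω) := hac.1
  have hWk : ∀ W : ValuationSubring Ω, W.comap (algebraMap F Ω) ∈ U →
      ∀ c : k, algebraMap k Ω c ∈ W := by
    intro W hW c
    rw [IsScalarTower.algebraMap_apply k F Ω]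
    exact hU _ hW c
  have hWA : ∀ W : ValuationSubring Ω, W.comap (algebraMap F Ω) ∈ U →
      ∀ c : algebraicClosure k Ω, algebraMap (algebraicClosure k Ω) Ω c ∈ W := by
    intro W hW c
    exact const_mem (hWk W hW) c.2
  have hc0 : c ≠ 0 := by
    rintro rfl
    rw [zero_div] at hc
    exact hc.1 rfl
  -- constants of `F`
  have hfixF : ∀ (z : F) (b : algebraicClosure k Ω), (b : Ω) = algebraMap F Ω z →
      ∀ σ : algebraicClosure k Ω ≃ₐ[k] algebraicClosure k Ω, σ b = b := by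
    intro z b hb σ
    apply Subtype.ext
    rw [← G.compat σ b (algebraMap F (unramified F Ω U) z) hb.symm, (G.toHom σ).commutes]
    exact hb.symm
  have hne : ∀ i, (θ i : Ω) ≠ algebraMap F Ω x := by
    intro i hi
    have h1 := hfixF x (θ i) hi φ
    rw [hπ] at h1
    have h2 := hcyc i 1 (by rw [pow_one]; exact hθ h1)
    exact hℓ.one_lt.ne' (Nat.dvd_one.1 h2)
  have hne0 : ∀ i, algebraMap F Ω x - algebraMap (algebraicClosure k Ω) Ω (θ i) ≠ 0 :=
    fun i => sub_ne_zero.2 (Ne.symm (hne i))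
  have hy0 : algebraMap F Ω y ≠ 0 := by
    intro h
    rw [h, zero_pow hℓ.ne_zero, mul_zero] at hxy
    obtain ⟨i, -, hi⟩ := Finset.prod_eq_zero_iff.1 hxy.symm
    exact hne0 i (pow_eq_zero_iff (fun h => he i (by rw [h]; exact dvd_zero _)) |>.1 hi)
  refine (mkT U hU G V S ϖ ϖ0 ϖn tame φ φV φS).abs ℓ hℓ hodd θ hθS π hπ hcyc e heπ
    (algebraMap F (unramified F Ω U) x) (algebraMap F (unramified F Ω U) y)
    (fun σ => (G.toHom σ).commutes x) (fun σ => (G.toHom σ).commutes y) c hcS m hm hc ?_ ?_ ?_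
  · apply (algebraMap (unramified F Ω U) Ω).injective
    rw [map_mul, map_pow, map_prod]
    simp only [map_pow]
    exact hxy
  · intro i h
    exact hne i (congrArg (algebraMap (unramified F Ω U) Ω) h).symm
  · intro i i'
    set D := mkT U hU G V S ϖ ϖ0 ϖn tame φ φV φS with hD
    have hval : (((algebraMap F (unramified F Ω U) x - D.ι (θ i)) /
        (algebraMap F (unramified F Ω U) x - D.ι (θ i')) : unramified F Ω U) : Ω) =
          (algebraMap F Ω x - algebraMap (algebraicClosure k Ω) Ω (θ i)) /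
            (algebraMap F Ω x - algebraMap (algebraicClosure k Ω) Ω (θ i')) := by
      change algebraMap (unramified F Ω U) Ω ((algebraMap F (unramified F Ω U) x - D.ι (θ i)) /
        (algebraMap F (unramified F Ω U) x - D.ι (θ i'))) = _
      rw [map_div₀, map_sub, map_sub]
      rfl
    refine exists_root_unramified (k := k) U hU hℓ.pos _ ?_
    intro _ W hW
    rw [hval]
    obtain ⟨t, a, b, b', ht, ht0, h3, h4⟩ := ratio_local (algebraMap (algebraicClosure k Ω) Ω) W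
      (hWA W hW) θ hθ ℓ hℓ e he (algebraMap F Ω x) (algebraMap F Ω y) hy0 c hc0 hxy i i'
      (hne0 i) (hne0 i')
    refine ⟨t, ?_, ht0, h3, h4⟩
    rw [ht]
    refine mul_mem (mul_mem (zpow_mem (IntermediateField.algebraMap_mem _ y) _)
      (zpow_mem (sub_mem (IntermediateField.algebraMap_mem _ x) (D.ι _).2) _))
      (zpow_mem (sub_mem (IntermediateField.algebraMap_mem _ x) (D.ι _).2) _)

/-- no rational point -/
theorem galpt {k : Type u} {A : Type w} [Field k] [Field A] [Algebra k A] [CharZero k]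
    [IsAlgClosed A] [Algebra.IsAlgebraic k A] (V : ValuationSubring A)
    (S : IntermediateField k A) (ϖ : k) (ϖ0 : ϖ ≠ 0)
    (ϖn : algebraMap k A ϖ ∈ V.nonunits)
    (tame : ∀ c ∈ S, c ≠ 0 → ∃ j : ℤ, IsU V (c / algebraMap k A ϖ ^ j))
    (φ : A ≃ₐ[k] A) (φV : ∀ x, φ x ∈ V ↔ x ∈ V)
    (φS : ∀ x, φ x ∈ S ↔ x ∈ S) (ℓ : ℕ) (hℓ : ℓ.Prime) (hodd : ℓ ≠ 2)
    {X : Type*} [Fintype X] (θ : X → A) (hθS : ∀ i, θ i ∈ S)
    (hθ : Function.Injective θ) (π : Equiv.Perm X) (hπ : ∀ i, φ (θ i) = θ (π i))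
    (hcyc : ∀ (x : X) (i : ℕ), (π ^ i) x = x → ℓ ∣ i) (e : X → ℕ)
    (heπ : ∀ i, e (π i) = e i) (x y : k) (c : A) (hcS : c ∈ S) (m : ℤ)
    (hm : ¬ (ℓ : ℤ) ∣ m) (hc : IsU V (c / algebraMap k A ϖ ^ m))
    (hxy : c * algebraMap k A y ^ ℓ = ∏ i, (algebraMap k A x - θ i) ^ (e i)) :
    False := by
  refine (idT V S ϖ ϖ0 ϖn tame φ φV φS).abs ℓ hℓ hodd θ hθS π hπ hcyc e heπ
    (algebraMap k A x) (algebraMap k A y)
    (fun σ => σ.commutes x) (fun σ => σ.commutes y) c hcS m hm hc hxy ?_ ?_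
  · intro i h
    have h1 : φ (θ i) = θ i := by
      have h2 : θ i = algebraMap k A x := h.symm
      rw [h2]
      exact φ.commutes x
    rw [hπ] at h1
    have h2 := hcyc i 1 (by rw [pow_one]; exact hθ h1)
    exact hℓ.one_lt.ne' (Nat.dvd_one.1 h2)
  · intro i i'
    exact IsAlgClosed.exists_pow_nat_eq _ hℓ.pos

end Pool.Agent.TH120.Sec
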