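import Pool.Agent.TH120.Sec.Gal
import Pool.Agent.W623.SecC.Red
import Pool.Agent.W327.SecC.PartB1

/-!
# The local theorem for odd exponents
-/

set_option autoImplicit false

namespace Pool.Agent.TH120.Sec

open Pool.Agent.W620.SC Pool.Agent.W623.SecC Polynomial IntermediateField

universe u v w

section red

variable {A kb : Type*} [CommRing A] [IsLocalRing A] [Field kb] [Algebra A kb]
  (V : ValuationSubring kb) (hV : ∀ a : A, algebraMap A kb a ∈ V)
  (hm : ∀ a ∈ IsLocalRing.maximalIdeal A, algebraMap A kb a ∈ V.nonunits)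

include hV hm in
/-- a root fixed by the `n`-th power of Frobenius gives a root in an extension of degree `n` -/
theorem root_of_fixed_pow (q : ℕ) (f : A[X]) (hf : IsUnit f.leadingCoeff) (φ : kb → kb)
    (hφV : ∀ x, φ x ∈ V ↔ x ∈ V) (hφ : ∀ x ∈ V, φ x - x ^ q ∈ V.nonunits) (θ : kb)
    (hθ : aeval θ f = 0) (n : ℕ) (hfix : φ^[n] θ = θ)
    (hcop : IsCoprime (X ^ (q ^ n) - X) (f.map (IsLocalRing.residue A))) : False := by
  classical
  have hθV := Pool.Agent.W308.SecC.root_mem V hV f hf θ hθ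
  have hstep : ∀ (x : V), ∃ y : V, (y : kb) = φ x ∧
      IsLocalRing.residue V y = IsLocalRing.residue V x ^ q := by
    intro x
    refine ⟨⟨φ x, (hφV _).2 x.2⟩, rfl, ?_⟩
    have h2 := hφ x x.2
    have h3 : IsLocalRing.residue V (⟨φ x, (hφV _).2 x.2⟩ - x ^ q) = 0 := residue_eq_zero V h2
    rw [map_sub, map_pow, sub_eq_zero] at h3
    exact h3
  have hpow : ∀ (n : ℕ) (x : V), ∃ y : V, (y : kb) = φ^[n] x ∧
      IsLocalRing.residue V y = IsLocalRing.residue V x ^ (q ^ n) := by
    intro n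
    induction n with
    | zero => exact fun x => ⟨x, rfl, by rw [pow_zero, pow_one]⟩
    | succ n ih =>
      intro x
      obtain ⟨y, hy, hy'⟩ := ih x
      obtain ⟨z, hz, hz'⟩ := hstep y
      refine ⟨z, ?_, ?_⟩
      · rw [hz, hy, Function.iterate_succ_apply']
      · rw [hz', hy', ← pow_mul, pow_succ]
  obtain ⟨y, hy, hy'⟩ := hpow n ⟨θ, hθV⟩
  have hyθ : y = ⟨θ, hθV⟩ := Subtype.ext (hy.trans hfix)
  rw [hyθ] at hy'
  set t := IsLocalRing.residue V ⟨θ, hθV⟩ with ht
  obtain ⟨a, b, hab⟩ := hcop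
  have h5 : eval₂ (toV V hV) (⟨θ, hθV⟩ : V) f = 0 := by
    apply V.subtype_injective
    rw [hom_eval₂, map_zero]
    exact hθ
  have h6 : eval₂ (resMap V hV hm) t (f.map (IsLocalRing.residue A)) = 0 := by
    rw [eval₂_map, resMap_comp, ht, ← hom_eval₂, h5, map_zero]
  have h7 := congrArg (eval₂ (resMap V hV hm) t) hab
  rw [eval₂_add, eval₂_mul, eval₂_mul, h6, mul_zero, add_zero, eval₂_sub, eval₂_pow, eval₂_X,
    ← hy', sub_self, mul_zero, eval₂_one] at h7
  exact zero_ne_one h7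

end red

/-- the roots of a product of polynomials, as a set with an action of Frobenius -/
theorem rootData {A k : Type u} {kb : Type w} [CommRing A] [IsDomain A]
    [IsDiscreteValuationRing A] [Field k] [Field kb] [Algebra A k] [Algebra k kb] [Algebra A kb]
    [IsScalarTower A k kb] [IsFractionRing A k] [CharZero k] [IsAlgClosed kb]
    (V : ValuationSubring kb) (hVa : ∀ a : A, algebraMap A kb a ∈ V)
    (hVm : ∀ a ∈ IsLocalRing.maximalIdeal A, algebraMap A kb a ∈ V.nonunits)
    (φ : kb ≃ₐ[k] kb) (hφV : ∀ x, φ x ∈ V ↔ x ∈ V) (q : ℕ)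
    (hφq : ∀ x ∈ V, φ x - x ^ q ∈ V.nonunits) (ℓ : ℕ)
    {I : Type} [Fintype I] (f : I → A[X]) (e : I → ℕ) (he : ∀ i, ¬ ℓ ∣ e i)
    (hlc : ∀ i, IsUnit (f i).leadingCoeff)
    (hs : ((∏ i, f i).map (IsLocalRing.residue A)).Separable)
    (hcyc : ∀ n : ℕ, ¬ ℓ ∣ n →
      IsCoprime (X ^ (q ^ n) - X) ((∏ i, f i).map (IsLocalRing.residue A))) :
    ∃ (X : Type w) (_ : Fintype X) (θ : X → kb) (π : Equiv.Perm X) (e' : X → ℕ),
      Function.Injective θ ∧ (∀ i, aeval (θ i) (∏ i, f i) = 0) ∧ (∀ i, φ (θ i) = θ (π i)) ∧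
      (∀ (x : X) (i : ℕ), (π ^ i) x = x → ℓ ∣ i) ∧ (∀ i, ¬ ℓ ∣ e' i) ∧
      (∀ i, e' (π i) = e' i) ∧
      ∀ {B : Type w} [Field B] (g : kb →+* B) (z : B),
        (∏ i, f i ^ e i).eval₂ (g.comp (algebraMap A kb)) z =
          g (algebraMap A kb (∏ i, (f i).leadingCoeff ^ e i)) *
            ∏ x : X, (z - g (θ x)) ^ (e' x) := by
  classical
  have hP : (∏ i, f i).leadingCoeff = ∏ i, (f i).leadingCoeff := leadingCoeff_prod _ _
  have hPu : IsUnit (∏ i, f i).leadingCoeff := by
    rw [hP, IsUnit.prod_univ_iff]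
    exact hlc
  obtain ⟨hnd, -⟩ := roots_distinct V hVa hVm (∏ i, f i) hPu hs
  have hlc0 : ∀ i, algebraMap A kb (f i).leadingCoeff ≠ 0 := fun i =>
    ((hlc i).map (algebraMap A kb)).ne_zero
  have hf0 : ∀ i, (f i).map (algebraMap A kb) ≠ 0 := by
    intro i h
    apply hlc0 i
    rw [← leadingCoeff_map_of_leadingCoeff_ne_zero _ (hlc0 i), h, leadingCoeff_zero]
  rw [Polynomial.map_prod, roots_prod _ _ (Finset.prod_ne_zero_iff.2 fun i _ => hf0 i),
    Multiset.nodup_bind] at hnd
  obtain ⟨hnd1, hnd2⟩ := hnd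
  have hndi : ∀ i, ((f i).map (algebraMap A kb)).roots.Nodup := fun i =>
    hnd1 i (Finset.mem_univ i)
  have hdisj : ∀ i i' : I, i ≠ i' → ∀ θ, θ ∈ ((f i).map (algebraMap A kb)).roots →
      θ ∉ ((f i').map (algebraMap A kb)).roots := by
    intro i i' hii θ h1 h2
    obtain ⟨l, hl, hl'⟩ := hnd2
    have h3 : i ∈ l := by
      rw [← Multiset.mem_coe, ← hl]
      exact Finset.mem_univ i
    have h4 : i' ∈ l := by
      rw [← Multiset.mem_coe, ← hl]
      exact Finset.mem_univ i'
    have hsy : Std.Symm (Function.onFun Disjoint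
        fun i => ((f i).map (algebraMap A kb)).roots) := ⟨fun a b h => Disjoint.symm h⟩
    have h5 := hl'.forall h3 h4 hii
    exact Multiset.disjoint_left.1 h5 h1 h2
  have hmem : ∀ i θ, θ ∈ ((f i).map (algebraMap A kb)).roots.toFinset ↔ aeval θ (f i) = 0 := by
    intro i θ
    rw [Multiset.mem_toFinset, mem_roots (hf0 i), IsRoot.def, eval_map]
    rfl
  have hφroot : ∀ i θ, θ ∈ ((f i).map (algebraMap A kb)).roots.toFinset ↔
      φ θ ∈ ((f i).map (algebraMap A kb)).roots.toFinset := by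
    intro i θ
    rw [hmem, hmem]
    have h1 : aeval (φ θ) (f i) = φ (aeval θ (f i)) := by
      rw [aeval_def, aeval_def]
      change _ = (φ : kb →+* kb) _
      rw [hom_eval₂]
      congr 1
      ext b
      rw [RingHom.comp_apply, IsScalarTower.algebraMap_apply A k kb]
      exact (φ.commutes (algebraMap A k b)).symm
    rw [h1, map_eq_zero_iff _ φ.injective]
  have hroot : ∀ (i : I) (θ : kb), aeval θ (f i) = 0 → aeval θ (∏ i, f i) = 0 := by
    intro i θ h
    rw [map_prod]
    exact Finset.prod_eq_zero (Finset.mem_univ i) h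
  let X := Σ i : I, {θ : kb // θ ∈ ((f i).map (algebraMap A kb)).roots.toFinset}
  let π : Equiv.Perm X := Equiv.sigmaCongrRight fun i => φ.toEquiv.subtypeEquiv (hφroot i)
  have hπ : ∀ x : X, φ (x.2 : kb) = ((π x).2 : kb) := fun x => rfl
  refine ⟨X, inferInstance, fun x => x.2.1, π, fun x => e x.1, ?_, ?_, hπ, ?_, fun x => he x.1,
    fun x => rfl, ?_⟩
  · rintro ⟨i, θ, hθ⟩ ⟨i', θ', hθ'⟩ h
    simp only at h
    subst h
    by_cases hii : i = i'
    · subst hii
      rfl
    · exact absurd (Multiset.mem_toFinset.1 hθ') (hdisj i i' hii θ (Multiset.mem_toFinset.1 hθ))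
  · intro x
    exact hroot x.1 _ ((hmem _ _).1 x.2.2)
  · intro x n hx
    by_contra hn
    have h1 : ∀ (n : ℕ) (x : X), ((((π ^ n) x).2 : kb)) = φ^[n] (x.2 : kb) := by
      intro n
      induction n with
      | zero => exact fun x => rfl
      | succ n ih =>
        intro x
        rw [pow_succ', Equiv.Perm.mul_apply, ← hπ, ih, Function.iterate_succ_apply']
    refine root_of_fixed_pow V hVa hVm q (∏ i, f i) hPu φ hφV hφq x.2.1
      (hroot x.1 _ ((hmem _ _).1 x.2.2)) n ?_ (hcyc n hn)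
    rw [← h1, hx]
  · intro B _ g z
    rw [eval₂_finsetProd]
    have h1 : ∀ i, (f i ^ e i).eval₂ (g.comp (algebraMap A kb)) z =
        g (algebraMap A kb ((f i).leadingCoeff ^ e i)) *
          ∏ x : {θ : kb // θ ∈ ((f i).map (algebraMap A kb)).roots.toFinset},
            (z - g x.1) ^ e i := by
      intro i
      have h2 := (IsAlgClosed.splits ((f i).map (algebraMap A kb))).eq_prod_roots
      rw [leadingCoeff_map_of_leadingCoeff_ne_zero _ (hlc0 i)] at h2
      have h3 : ∏ x : {θ : kb // θ ∈ ((f i).map (algebraMap A kb)).roots.toFinset},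
          (z - g x.1) ^ e i =
          (((f i).map (algebraMap A kb)).roots.map (fun θ => z - g θ)).prod ^ e i := by
        rw [Finset.prod_pow]
        congr 1
        have h4 := Finset.prod_coe_sort ((f i).map (algebraMap A kb)).roots.toFinset
          (fun θ => z - g θ)
        refine h4.trans ?_
        rw [Finset.prod, Multiset.toFinset_val, Multiset.dedup_eq_self.2 (hndi i)]
      rw [h3, eval₂_pow, ← eval₂_map]
      conv_lhs => rw [h2]
      rw [eval₂_mul, eval₂_C, ← coe_eval₂RingHom, map_multiset_prod,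
        Multiset.map_map, mul_pow, ← map_pow, ← map_pow]
      congr 3
      refine Multiset.map_congr rfl fun a _ => ?_
      simp
    rw [Finset.prod_congr rfl fun i _ => h1 i, Finset.prod_mul_distrib, ← map_prod, ← map_prod]
    congr 1
    exact (Fintype.prod_sigma (fun x : X => (z - g x.2.1) ^ (e x.1))).symm

end Pool.Agent.TH120.Sec
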