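import Pool.Agent.TH120.Sec.Loc

/-!
# The local theorem for odd exponents (2)
-/

set_option autoImplicit false

namespace Pool.Agent.TH120.Sec

open Pool.Agent.W620.SC Pool.Agent.W623.SecC Polynomial IntermediateField

universe u v w

/-- the field generated by the roots is stable under automorphisms -/
lemma adjoin_roots_stable {A k kb : Type*} [CommRing A] [Field k] [Field kb] [Algebra A k]
    [Algebra k kb] [Algebra A kb] [IsScalarTower A k kb] (f : A[X]) (φ : kb ≃ₐ[k] kb) (x : kb) :
    φ x ∈ IntermediateField.adjoin k {θ : kb | aeval θ f = 0} ↔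
      x ∈ IntermediateField.adjoin k {θ : kb | aeval θ f = 0} := by
  have hφroot : ∀ θ, aeval θ f = 0 ↔ aeval (φ θ) f = 0 := by
    intro θ
    have h1 : aeval (φ θ) f = φ (aeval θ f) := by
      rw [aeval_def, aeval_def]
      change _ = (φ : kb →+* kb) _
      rw [hom_eval₂]
      congr 1
      ext b
      rw [RingHom.comp_apply, IsScalarTower.algebraMap_apply A k kb]
      exact (φ.commutes (algebraMap A k b)).symm
    rw [h1, map_eq_zero_iff _ φ.injective]
  set L := IntermediateField.adjoin k {θ : kb | aeval θ f = 0} with hL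
  have h1 : L.map (φ : kb →ₐ[k] kb) = L := by
    rw [hL, IntermediateField.adjoin_map]
    congr 1
    ext θ
    constructor
    · rintro ⟨θ', h1, rfl⟩
      exact (hφroot θ').1 h1
    · intro h1
      refine ⟨φ.symm θ, ?_, φ.apply_symm_apply θ⟩
      refine (hφroot _).2 ?_
      rw [φ.apply_symm_apply]
      exact h1
  constructor
  · intro h3
    rw [← h1] at h3
    obtain ⟨z', h5, h6⟩ := h3
    have h7 : z' = x := φ.injective h6
    rw [← h7]
    exact h5
  · intro h3
    rw [← h1]
    exact ⟨x, h3, rfl⟩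

section units

variable {A : Type u} {kb : Type w} [CommRing A] [Field kb] [Algebra A kb] (V : ValuationSubring kb) (hVa : ∀ a : A, algebraMap A kb a ∈ V)

include hVa in
lemma unit_isU {b : A} (hb : IsUnit b) : IsU V (algebraMap A kb b) := by
  obtain ⟨b, rfl⟩ := hb
  refine ⟨(b.isUnit.map (algebraMap A kb)).ne_zero, hVa _, ?_⟩
  have h1 : (algebraMap A kb (b : A))⁻¹ = algebraMap A kb ((b⁻¹ : Aˣ) : A) := by
    refine inv_eq_of_mul_eq_one_right ?_
    rw [← map_mul, Units.mul_inv, map_one]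
  rw [h1]
  exact hVa _

end units

/-- **The local theorem**, sections. -/
theorem local_odd {A k : Type u} {F : Type v} {Ω : Type w} [CommRing A] [IsDomain A]
    [IsDiscreteValuationRing A] [Finite (IsLocalRing.ResidueField A)] [Field k] [Algebra A k]
    [IsFractionRing A k] [CharZero k] [Field F] [Field Ω] [Algebra k F] [Algebra F Ω]
    [Algebra k Ω] [IsScalarTower k F Ω] [IsAlgClosed Ω] [Algebra.IsAlgebraic F Ω]
    (ℓ : ℕ) (hℓ : ℓ.Prime) (hodd : ℓ ≠ 2)
    {I : Type} [Fintype I] (f : I → A[X]) (e : I → ℕ) (he : ∀ i, ¬ ℓ ∣ e i)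
    (hlc : ∀ i, IsUnit (f i).leadingCoeff)
    (hs : ((∏ i, f i).map (IsLocalRing.residue A)).Separable)
    (hcyc : ∀ n : ℕ, ¬ ℓ ∣ n → IsCoprime (X ^ (Nat.card (IsLocalRing.ResidueField A) ^ n) - X)
      ((∏ i, f i).map (IsLocalRing.residue A)))
    (ϖ : A) (hϖ : Irreducible ϖ) (a : k) (t : A) (ht : IsUnit t) (m : ℤ) (hm : ¬ (ℓ : ℤ) ∣ m)
    (ha : a = algebraMap A k t * algebraMap A k ϖ ^ m)
    (U : Set (ValuationSubring F)) (hU : ∀ O ∈ U, ∀ c : k, algebraMap k F c ∈ O)
    (x y : F) (hxy : algebraMap k F a * y ^ ℓ =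
      aeval x ((∏ i, f i ^ e i).map (algebraMap A k))) :
    IsEmpty (GSection k F Ω U) := by
  classical
  refine ⟨fun G => ?_⟩
  have hac : IsAlgClosure k (algebraicClosure k Ω) := inferInstance
  have hkb : IsAlgClosed (algebraicClosure k Ω) := hac.1
  let _ : Algebra A (algebraicClosure k Ω) :=
    ((algebraMap k (algebraicClosure k Ω)).comp (algebraMap A k)).toAlgebra
  have hst : IsScalarTower A k (algebraicClosure k Ω) :=
    IsScalarTower.of_algebraMap_eq (fun _ => rfl)
  obtain ⟨V, φ, hVa, hVm, hφV, hφq⟩ :=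
    W327.SecC.partB1 A k (algebraicClosure k Ω)
  obtain ⟨X, _, θ, π, e', hθinj, hθroot, hπ, hcyc', he', heπ, hprod⟩ :=
    rootData V hVa hVm φ hφV _ hφq ℓ f e he hlc hs hcyc
  have hlcP : IsUnit (∏ i, f i).leadingCoeff := by
    rw [leadingCoeff_prod, IsUnit.prod_univ_iff]
    exact hlc
  set S := IntermediateField.adjoin k {θ : algebraicClosure k Ω | aeval θ (∏ i, f i) = 0} with hS
  have hϖk0 : algebraMap A k ϖ ≠ 0 := by
    rw [Ne, map_eq_zero_iff _ (IsFractionRing.injective A k)]
    exact hϖ.ne_zero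
  have hpk : algebraMap k (algebraicClosure k Ω) (algebraMap A k ϖ) =
      algebraMap A (algebraicClosure k Ω) ϖ := rfl
  have hpn : algebraMap k (algebraicClosure k Ω) (algebraMap A k ϖ) ∈ V.nonunits := hVm _ (by
    rw [hϖ.maximalIdeal_eq]
    exact Ideal.mem_span_singleton_self ϖ)
  have htame : ∀ c ∈ S, c ≠ 0 → ∃ j : ℤ,
      IsU V (c / algebraMap k (algebraicClosure k Ω) (algebraMap A k ϖ) ^ j) := fun c hc hc0 =>
    Pool.Agent.W308.SecC.partB2 A k (algebraicClosure k Ω) V hVa hVm ϖ hϖ (∏ i, f i) hlcP hs c hc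
      hc0
  set u : A := ∏ i, (f i).leadingCoeff ^ e i with hu
  have huu : IsUnit u := by
    rw [hu, IsUnit.prod_univ_iff]
    exact fun i => (hlc i).pow _
  have hu0 : algebraMap A k u ≠ 0 := by
    rw [Ne, map_eq_zero_iff _ (IsFractionRing.injective A k)]
    exact huu.ne_zero
  set c : algebraicClosure k Ω := algebraMap k (algebraicClosure k Ω)
    (a / algebraMap A k u) with hc
  have hcu : IsU V (c / algebraMap k (algebraicClosure k Ω) (algebraMap A k ϖ) ^ m) := by
    have hp0 : algebraMap k (algebraicClosure k Ω) (algebraMap A k ϖ) ^ m ≠ 0 :=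
      zpow_ne_zero _ ((_root_.map_ne_zero _).2 hϖk0)
    have h1 : c / algebraMap k (algebraicClosure k Ω) (algebraMap A k ϖ) ^ m =
        algebraMap A (algebraicClosure k Ω) t / algebraMap A (algebraicClosure k Ω) u := by
      have e1 : algebraMap k (algebraicClosure k Ω) (algebraMap A k t) =
        algebraMap A (algebraicClosure k Ω) t := rfl
      have e2 : algebraMap k (algebraicClosure k Ω) (algebraMap A k u) =
        algebraMap A (algebraicClosure k Ω) u := rfl
      rw [hc, ha, map_div₀, map_mul, map_zpow₀, e1, e2, mul_div_right_comm,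
        mul_div_cancel_right₀ _ hp0]
    rw [h1]
    exact (unit_isU V hVa ht).div (unit_isU V hVa huu)
  refine gal U hU G V S (algebraMap A k ϖ) hϖk0 hpn htame φ hφV
    (fun x => adjoin_roots_stable (∏ i, f i) φ x) ℓ hℓ hodd θ
    (fun i => IntermediateField.subset_adjoin k _ (hθroot i)) hθinj π hπ hcyc' e' he' heπ x y c
    (S.algebraMap_mem _) m hm hcu ?_
  have h1 := congrArg (algebraMap F Ω) hxy
  rw [map_mul, map_pow, ← IsScalarTower.algebraMap_apply] at h1
  have h3 : algebraMap F Ω (aeval x ((∏ i, f i ^ e i).map (algebraMap A k))) =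
      (∏ i, f i ^ e i).eval₂ ((algebraMap (algebraicClosure k Ω) Ω).comp
        (algebraMap A (algebraicClosure k Ω))) (algebraMap F Ω x) := by
    rw [aeval_def, hom_eval₂, eval₂_map, ← IsScalarTower.algebraMap_eq k F Ω,
      IsScalarTower.algebraMap_eq A k (algebraicClosure k Ω), ← RingHom.comp_assoc,
      ← IsScalarTower.algebraMap_eq k (algebraicClosure k Ω) Ω]
  rw [h3, hprod (algebraMap (algebraicClosure k Ω) Ω) (algebraMap F Ω x)] at h1
  have h5 : algebraMap (algebraicClosure k Ω) Ω (algebraMap A (algebraicClosure k Ω) u) ≠ 0 :=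
    (_root_.map_ne_zero _).2 ((_root_.map_ne_zero (algebraMap k (algebraicClosure k Ω))).2 hu0)
  have h6 : (c : Ω) = algebraMap k Ω a / algebraMap (algebraicClosure k Ω) Ω
      (algebraMap A (algebraicClosure k Ω) u) := by
    change algebraMap (algebraicClosure k Ω) Ω c = _
    rw [hc, map_div₀, map_div₀, ← IsScalarTower.algebraMap_apply]
    rfl
  rw [h6, div_mul_eq_mul_div, h1, mul_div_cancel_left₀ _ h5]
  rfl

/-- **The local theorem**, points. -/
theorem local_odd_pt {A k : Type u} [CommRing A] [IsDomain A]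
    [IsDiscreteValuationRing A] [Finite (IsLocalRing.ResidueField A)] [Field k] [Algebra A k]
    [IsFractionRing A k] [CharZero k]
    (ℓ : ℕ) (hℓ : ℓ.Prime) (hodd : ℓ ≠ 2)
    {I : Type} [Fintype I] (f : I → A[X]) (e : I → ℕ) (he : ∀ i, ¬ ℓ ∣ e i)
    (hlc : ∀ i, IsUnit (f i).leadingCoeff)
    (hs : ((∏ i, f i).map (IsLocalRing.residue A)).Separable)
    (hcyc : ∀ n : ℕ, ¬ ℓ ∣ n → IsCoprime (X ^ (Nat.card (IsLocalRing.ResidueField A) ^ n) - X)
      ((∏ i, f i).map (IsLocalRing.residue A)))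
    (ϖ : A) (hϖ : Irreducible ϖ) (a : k) (t : A) (ht : IsUnit t) (m : ℤ) (hm : ¬ (ℓ : ℤ) ∣ m)
    (ha : a = algebraMap A k t * algebraMap A k ϖ ^ m)
    (x y : k) : a * y ^ ℓ ≠ ((∏ i, f i ^ e i).map (algebraMap A k)).eval x := by
  classical
  intro hxy
  obtain ⟨V, φ, hVa, hVm, hφV, hφq⟩ :=
    W327.SecC.partB1 A k (AlgebraicClosure k)
  obtain ⟨X, _, θ, π, e', hθinj, hθroot, hπ, hcyc', he', heπ, hprod⟩ :=
    rootData V hVa hVm φ hφV _ hφq ℓ f e he hlc hs hcyc
  have hlcP : IsUnit (∏ i, f i).leadingCoeff := by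
    rw [leadingCoeff_prod, IsUnit.prod_univ_iff]
    exact hlc
  set S := IntermediateField.adjoin k {θ : AlgebraicClosure k | aeval θ (∏ i, f i) = 0} with hS
  have hϖk0 : algebraMap A k ϖ ≠ 0 := by
    rw [Ne, map_eq_zero_iff _ (IsFractionRing.injective A k)]
    exact hϖ.ne_zero
  have hpn : algebraMap k (AlgebraicClosure k) (algebraMap A k ϖ) ∈ V.nonunits := by
    rw [← IsScalarTower.algebraMap_apply]
    refine hVm _ ?_
    rw [hϖ.maximalIdeal_eq]
    exact Ideal.mem_span_singleton_self ϖ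
  have htame : ∀ c ∈ S, c ≠ 0 → ∃ j : ℤ,
      IsU V (c / algebraMap k (AlgebraicClosure k) (algebraMap A k ϖ) ^ j) := fun c hc hc0 => by
    rw [← IsScalarTower.algebraMap_apply]
    exact Pool.Agent.W308.SecC.partB2 A k (AlgebraicClosure k) V hVa hVm ϖ hϖ (∏ i, f i) hlcP hs c hc
      hc0
  set u : A := ∏ i, (f i).leadingCoeff ^ e i with hu
  have huu : IsUnit u := by
    rw [hu, IsUnit.prod_univ_iff]
    exact fun i => (hlc i).pow _
  have hu0 : algebraMap A k u ≠ 0 := by
    rw [Ne, map_eq_zero_iff _ (IsFractionRing.injective A k)]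
    exact huu.ne_zero
  set c : AlgebraicClosure k := algebraMap k (AlgebraicClosure k)
    (a / algebraMap A k u) with hc
  have hcu : IsU V (c / algebraMap k (AlgebraicClosure k) (algebraMap A k ϖ) ^ m) := by
    have hp0 : algebraMap k (AlgebraicClosure k) (algebraMap A k ϖ) ^ m ≠ 0 :=
      zpow_ne_zero _ ((_root_.map_ne_zero _).2 hϖk0)
    have h1 : c / algebraMap k (AlgebraicClosure k) (algebraMap A k ϖ) ^ m =
        algebraMap A (AlgebraicClosure k) t / algebraMap A (AlgebraicClosure k) u := by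
      have e1 : algebraMap k (AlgebraicClosure k) (algebraMap A k t) =
        algebraMap A (AlgebraicClosure k) t := (IsScalarTower.algebraMap_apply _ _ _ _).symm
      have e2 : algebraMap k (AlgebraicClosure k) (algebraMap A k u) =
        algebraMap A (AlgebraicClosure k) u := (IsScalarTower.algebraMap_apply _ _ _ _).symm
      rw [hc, ha, map_div₀, map_mul, map_zpow₀, e1, e2, mul_div_right_comm,
        mul_div_cancel_right₀ _ hp0]
    rw [h1]
    exact (unit_isU V hVa ht).div (unit_isU V hVa huu)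
  refine galpt V S (algebraMap A k ϖ) hϖk0 hpn htame φ hφV
    (fun x => adjoin_roots_stable (∏ i, f i) φ x) ℓ hℓ hodd θ
    (fun i => IntermediateField.subset_adjoin k _ (hθroot i)) hθinj π hπ hcyc' e' heπ x y c
    (S.algebraMap_mem _) m hm hcu ?_
  have h1 := congrArg (algebraMap k (AlgebraicClosure k)) hxy
  rw [map_mul, map_pow] at h1
  have h3 : algebraMap k (AlgebraicClosure k) (eval x ((∏ i, f i ^ e i).map (algebraMap A k))) =
      (∏ i, f i ^ e i).eval₂ ((RingHom.id (AlgebraicClosure k)).comp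
        (algebraMap A (AlgebraicClosure k))) (algebraMap k (AlgebraicClosure k) x) := by
    rw [← eval₂_at_apply, eval₂_map, IsScalarTower.algebraMap_eq A k (AlgebraicClosure k)]
    congr 1
  rw [h3, hprod (RingHom.id (AlgebraicClosure k)) (algebraMap k (AlgebraicClosure k) x)] at h1
  have h5 : algebraMap A (AlgebraicClosure k) u ≠ 0 := by
    rw [IsScalarTower.algebraMap_apply A k (AlgebraicClosure k)]
    exact (_root_.map_ne_zero (algebraMap k (AlgebraicClosure k))).2 hu0
  have h6 : c = algebraMap k (AlgebraicClosure k) a / algebraMap A (AlgebraicClosure k) u := by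
    rw [hc, map_div₀, ← IsScalarTower.algebraMap_apply]
  rw [h6, div_mul_eq_mul_div, h1]
  exact mul_div_cancel_left₀ _ h5

end Pool.Agent.TH120.Sec
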