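import Pool.Agent.W723.SecC.D1d

/-!
# Extension of a homomorphism `𝓞 L → k` to its valuation ring
-/

set_option autoImplicit false

namespace Pool.Agent.TH120.Sec

open Polynomial NumberField IsDedekindDomain
open Pool.Agent.W401.Cheb

variable {L : Type} [Field L] [NumberField L] {k : Type} [Field k] (φ : 𝓞 L →+* k)

instance kerPrime : (RingHom.ker φ).IsPrime := RingHom.ker_isPrime φ

lemma kerc_le : (RingHom.ker φ).primeCompl ≤ nonZeroDivisors (𝓞 L) :=
  (RingHom.ker φ).primeCompl_le_nonZeroDivisors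

/-- the localisation of `𝓞 L` at the kernel of `φ` -/
noncomputable def BB : Subalgebra (𝓞 L) L :=
  Localization.subalgebra.ofField L (RingHom.ker φ).primeCompl (kerc_le φ)

instance : IsLocalization (RingHom.ker φ).primeCompl (BB φ) :=
  Localization.subalgebra.isLocalization_ofField L (RingHom.ker φ).primeCompl (kerc_le φ)

lemma unit_of (y : (RingHom.ker φ).primeCompl) : IsUnit (φ y) := by
  rw [isUnit_iff_ne_zero]
  exact fun h => y.2 (RingHom.mem_ker.2 h)

/-- the extension of `φ` -/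
noncomputable def ext : BB φ →+* k :=
  IsLocalization.lift (M := (RingHom.ker φ).primeCompl) (g := φ) (unit_of φ)

lemma ext_alg (x : 𝓞 L) : ext φ (algebraMap (𝓞 L) (BB φ) x) = φ x :=
  IsLocalization.lift_eq _ _

lemma mem_BB (x : L) (m y : 𝓞 L) (hm : φ m ≠ 0) (h : (m : L) * x = y) : x ∈ BB φ := by
  have hm' : m ∈ (RingHom.ker φ).primeCompl := fun h => hm (RingHom.mem_ker.1 h)
  have hu : IsUnit (algebraMap (𝓞 L) (BB φ) m) :=
    IsLocalization.map_units (BB φ) (⟨m, hm'⟩ : (RingHom.ker φ).primeCompl)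
  obtain ⟨u, hu⟩ := hu
  have hm0 : (m : L) ≠ 0 := by
    intro h0
    apply hm
    have : m = 0 := RingOfIntegers.coe_injective h0
    rw [this, map_zero]
  have h1 : x = ((↑u⁻¹ * algebraMap (𝓞 L) (BB φ) y : BB φ) : L) := by
    have h2 : ((u : BB φ) : L) * ((↑u⁻¹ : BB φ) : L) = 1 := by
      rw [← MulMemClass.coe_mul, Units.mul_inv]
      rfl
    have h3 : ((u : BB φ) : L) = (m : L) := by rw [hu]; rfl
    rw [h3] at h2
    have h4 : ((algebraMap (𝓞 L) (BB φ) y : BB φ) : L) = (y : L) := rfl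
    rw [MulMemClass.coe_mul, h4, ← h]
    linear_combination (-x) * h2
  rw [h1]
  exact Subtype.mem _

lemma BB_frac (x : BB φ) : ∃ m y : 𝓞 L, φ m ≠ 0 ∧ (m : L) * x = y ∧ φ m * ext φ x = φ y := by
  obtain ⟨⟨y, m⟩, h⟩ := IsLocalization.surj (RingHom.ker φ).primeCompl x
  simp only at h
  refine ⟨m, y, fun h0 => m.2 (RingHom.mem_ker.2 h0), ?_, ?_⟩
  · have h1 := congrArg (fun z : BB φ => (z : L)) h
    rw [mul_comm]
    exact h1
  · rw [← ext_alg, ← ext_alg φ y, ← h, map_mul, mul_comm]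

lemma ext_ne_zero_of (x : BB φ) (hx : (x : L)⁻¹ ∈ BB φ) (h0 : (x : L) ≠ 0) : ext φ x ≠ 0 := by
  intro h
  have h1 : x * ⟨(x : L)⁻¹, hx⟩ = 1 := by
    apply Subtype.ext
    exact mul_inv_cancel₀ h0
  have h2 := congrArg (ext φ) h1
  rw [map_mul, h, zero_mul, map_one] at h2
  exact zero_ne_one h2

variable {p : ℕ} [Fact p.Prime]

section

variable {k : Type} [Field k] (φ : 𝓞 L →+* k) (τ : L ≃ₐ[ℚ] L) (hφ : HasFrob p φ τ)

include hφ

lemma frob_BB (x : BB φ) : ∃ h : τ (x : L) ∈ BB φ, ext φ ⟨τ x, h⟩ = ext φ x ^ p := by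
  obtain ⟨m, y, hm, h1, h2⟩ := BB_frac φ x
  have h3 : ((τ • m : 𝓞 L) : L) * τ x = (τ • y : 𝓞 L) := by
    have h4 : ((τ • m : 𝓞 L) : L) = τ m := rfl
    have h5 : ((τ • y : 𝓞 L) : L) = τ y := rfl
    rw [h4, h5, ← map_mul, h1]
  have hm' : φ (τ • m) ≠ 0 := by
    rw [hφ m]
    exact pow_ne_zero _ hm
  have hmem := mem_BB φ (τ x) _ _ hm' h3
  refine ⟨hmem, ?_⟩
  have h4 : algebraMap (𝓞 L) (BB φ) (τ • m) * ⟨τ x, hmem⟩ = algebraMap (𝓞 L) (BB φ) (τ • y) :=
    Subtype.ext h3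
  have h5 := congrArg (ext φ) h4
  rw [map_mul, ext_alg, ext_alg, hφ m, hφ y, ← h2, mul_pow] at h5
  exact mul_left_cancel₀ (pow_ne_zero _ hm) h5

end

/-- an element of `𝓞 L` that controls finitely many elements of `L` -/
lemma exists_ctrl (s : Finset L) : ∃ E : 𝓞 L, E ≠ 0 ∧
    ∀ (k : Type) [Field k] (φ : 𝓞 L →+* k), φ E ≠ 0 → ∀ z ∈ s, ∃ h : z ∈ BB φ,
      z ≠ 0 → ext φ ⟨z, h⟩ ≠ 0 := by
  classical
  induction s using Finset.induction_on with
  | empty => exact ⟨1, one_ne_zero, fun k _ φ _ z hz => absurd hz (Finset.notMem_empty z)⟩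
  | insert a s has ih =>
    obtain ⟨E, hE, h⟩ := ih
    obtain ⟨⟨y, m⟩, hmy⟩ := IsLocalization.surj (nonZeroDivisors (𝓞 L)) a
    simp only at hmy
    have hm0 : (m : 𝓞 L) ≠ 0 := nonZeroDivisors.coe_ne_zero m
    have hmL : ((m : 𝓞 L) : L) ≠ 0 := by
      intro h0
      apply hm0
      exact RingOfIntegers.coe_injective h0
    by_cases ha : a = 0
    · refine ⟨E, hE, fun k _ φ hφ z hz => ?_⟩
      rcases Finset.mem_insert.1 hz with rfl | hz
      · refine ⟨by rw [ha]; exact zero_mem _, fun h0 => absurd ha h0⟩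
      · exact h k φ hφ z hz
    · have hy0 : y ≠ 0 := by
        rintro rfl
        rw [map_zero] at hmy
        exact (mul_ne_zero ha hmL) hmy
      refine ⟨E * (m * y), mul_ne_zero hE (mul_ne_zero hm0 hy0), fun k _ φ hφ z hz => ?_⟩
      rw [map_mul, map_mul] at hφ
      have h1 : φ E ≠ 0 := left_ne_zero_of_mul hφ
      have h2 : φ m ≠ 0 := left_ne_zero_of_mul (right_ne_zero_of_mul hφ)
      have h3 : φ y ≠ 0 := right_ne_zero_of_mul (right_ne_zero_of_mul hφ)
      rcases Finset.mem_insert.1 hz with rfl | hz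
      · have h4 : ((m : 𝓞 L) : L) * z = y := by
          rw [mul_comm]
          exact hmy
        have hmem := mem_BB φ z m y h2 h4
        refine ⟨hmem, fun h0 h5 => h3 ?_⟩
        have h6 : algebraMap (𝓞 L) (BB φ) m * ⟨z, hmem⟩ = algebraMap (𝓞 L) (BB φ) y :=
          Subtype.ext h4
        rw [← ext_alg, ← h6, map_mul, h5, mul_zero]
      · exact h k φ h1 z hz

end Pool.Agent.TH120.Sec
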