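import Pool.Agent.TH120.Sec.Place
import Pool.Agent.TH120.Sec.Binom

/-!
# Specialisation of a family at a prime where `g(t)` has a root
-/

set_option autoImplicit false

namespace Pool.Agent.TH120.Sec

open Polynomial NumberField IsDedekindDomain
open Pool.Agent.W401.Cheb

universe u

variable {K : Type u} [Field K] [NumberField K] {L : Type} [Field L] [NumberField L]
  (i : K →+* L) (θ : L)

/-- the homomorphism `(𝓞 K)[T] → L`, `T ↦ θ` -/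
noncomputable def evL : (𝓞 K)[X] →+* L := eval₂RingHom (i.comp (algebraMap (𝓞 K) K)) θ

section

variable {k : Type} [Field k] (φ : 𝓞 L →+* k) (hθ : θ ∈ BB φ)

/-- the homomorphism `(𝓞 K)[T] → BB φ`, `T ↦ θ` -/
noncomputable def evB : (𝓞 K)[X] →+* BB φ :=
  eval₂RingHom ((algebraMap (𝓞 L) (BB φ)).comp (RingOfIntegers.mapRingHom i)) ⟨θ, hθ⟩

lemma evB_val (g : (𝓞 K)[X]) : ((evB i θ φ hθ g : BB φ) : L) = evL i θ g := by
  have h : ((BB φ).val : BB φ →+* L).comp (evB i θ φ hθ) = evL i θ := by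
    apply Polynomial.ringHom_ext
    · intro a
      simp only [RingHom.comp_apply, evB, evL, coe_eval₂RingHom, eval₂_C]
      rfl
    · simp only [RingHom.comp_apply, evB, evL, coe_eval₂RingHom, eval₂_X]
      rfl
  exact congrFun (congrArg DFunLike.coe h) g

lemma evB_ext (t : 𝓞 K) (ht : φ (RingOfIntegers.mapRingHom i t) = ext φ ⟨θ, hθ⟩) :
    (ext φ).comp (evB i θ φ hθ) =
      (φ.comp (RingOfIntegers.mapRingHom i)).comp (evalRingHom t) := by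
  apply Polynomial.ringHom_ext
  · intro a
    simp only [RingHom.comp_apply, evB, coe_eval₂RingHom, eval₂_C, coe_evalRingHom, eval_C]
    exact ext_alg φ _
  · simp only [RingHom.comp_apply, evB, coe_eval₂RingHom, eval₂_X, coe_evalRingHom, eval_X]
    exact ht.symm

lemma spec_poly (H : (𝓞 K)[X][X]) (S : Finset L)
    (hH : H.map (evL i θ) = C (evL i θ H.leadingCoeff) * ∏ ρ ∈ S, (X - C ρ))
    (r : L → BB φ) (hr : ∀ ρ ∈ S, (r ρ : L) = ρ)
    (t : 𝓞 K) (ht : φ (RingOfIntegers.mapRingHom i t) = ext φ ⟨θ, hθ⟩) :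
    (H.map (evalRingHom t)).map (φ.comp (RingOfIntegers.mapRingHom i)) =
      C (ext φ (evB i θ φ hθ H.leadingCoeff)) * ∏ ρ ∈ S, (X - C (ext φ (r ρ))) := by
  have hinj : Function.Injective ((BB φ).val : BB φ →+* L) := Subtype.val_injective
  have h3 : H.map (evB i θ φ hθ) =
      C (evB i θ φ hθ H.leadingCoeff) * ∏ ρ ∈ S, (X - C (r ρ)) := by
    apply Polynomial.map_injective _ hinj
    rw [Polynomial.map_map, Polynomial.map_mul, map_C, Polynomial.map_prod]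
    have h4 : ((BB φ).val : BB φ →+* L).comp (evB i θ φ hθ) = evL i θ :=
      RingHom.ext fun g => evB_val i θ φ hθ g
    rw [h4, hH]
    congr 1
    · congr 1
      exact (evB_val i θ φ hθ _).symm
    · refine Finset.prod_congr rfl fun ρ hρ => ?_
      rw [Polynomial.map_sub, map_X, map_C]
      congr 2
      exact (hr ρ hρ).symm
  rw [Polynomial.map_map, ← evB_ext i θ φ hθ t ht, ← Polynomial.map_map, h3, Polynomial.map_mul,
    map_C, Polynomial.map_prod]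
  congr 1
  refine Finset.prod_congr rfl fun ρ _ => ?_
  rw [Polynomial.map_sub, map_X, map_C]

end

/-- the local conditions for a polynomial -/
def Loc (v : HeightOneSpectrum (𝓞 K)) (ℓ d : ℕ) (P : (𝓞 K)[X]) : Prop :=
  P.natDegree = d ∧ P.leadingCoeff ∉ v.asIdeal ∧
    (P.map (Ideal.Quotient.mk v.asIdeal)).Separable ∧
    (ℓ = 2 → (2 : 𝓞 K) ∉ v.asIdeal ∧
      ∀ r, (P.map (Ideal.Quotient.mk v.asIdeal)).eval r ≠ 0) ∧
    (ℓ ≠ 2 → ∀ n : ℕ, ¬ ℓ ∣ n → IsCoprime (X ^ (Ideal.absNorm v.asIdeal ^ n) - X)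
      (P.map (Ideal.Quotient.mk v.asIdeal)))

/-- the conditions for all members of the family in a residue class -/
def Cond (v : HeightOneSpectrum (𝓞 K)) (ℓ d : ℕ) (g : (𝓞 K)[X]) (H : (𝓞 K)[X][X])
    (t₀ : 𝓞 K) : Prop :=
  ∀ t, t - t₀ ∈ v.asIdeal → g.eval t ∈ v.asIdeal ∧ g.derivative.eval t ∉ v.asIdeal ∧
    Loc v ℓ d (H.map (evalRingHom t))

theorem place_cond (p : ℕ) [Fact p.Prime] (φ : 𝓞 L →+* AlgebraicClosure (ZMod p))
    (τ : L ≃ₐ[ℚ] L) (hφ : HasFrob p φ τ) (hτθ : τ θ = θ) (hθ : θ ∈ BB φ)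
    (v : HeightOneSpectrum (𝓞 K))
    (hv : ∀ x, x ∈ v.asIdeal ↔ φ (RingOfIntegers.mapRingHom i x) = 0)
    (hnorm : Ideal.absNorm v.asIdeal = p)
    (hψ : ∀ x, φ (RingOfIntegers.mapRingHom i x) ^ p = φ (RingOfIntegers.mapRingHom i x))
    (h2 : (2 : 𝓞 K) ∉ v.asIdeal)
    (ℓ : ℕ) (g : (𝓞 K)[X]) (H : (𝓞 K)[X][X])
    (hg : evL i θ g = 0) (hg' : evL i θ g.derivative ≠ 0)
    (hgi : (evL i θ g.derivative)⁻¹ ∈ BB φ)
    (hc : evL i θ H.leadingCoeff ≠ 0) (hci : (evL i θ H.leadingCoeff)⁻¹ ∈ BB φ)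
    (S : Finset L)
    (hH : H.map (evL i θ) = C (evL i θ H.leadingCoeff) * ∏ ρ ∈ S, (X - C ρ))
    (hS : ∀ ρ ∈ S, ρ ∈ BB φ)
    (hSd : ∀ ρ ∈ S, ∀ ρ' ∈ S, ρ ≠ ρ' → (ρ - ρ')⁻¹ ∈ BB φ)
    (hSτ : ∀ ρ ∈ S, τ ρ ∈ S)
    (hder : ∀ ρ ∈ S, τ ρ ≠ ρ)
    (hcyc : ℓ ≠ 2 → ∀ n : ℕ, ¬ ℓ ∣ n → ∀ ρ ∈ S, (τ^[n]) ρ ≠ ρ) :
    ∃ t₀ : 𝓞 K, Cond v ℓ H.natDegree g H t₀ := by
  classical
  have hvm : v.asIdeal.IsMaximal := v.isMaximal
  have hfin' : Finite (𝓞 K ⧸ v.asIdeal) := Ideal.finiteQuotientOfFreeOfNeBot _ v.ne_bot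
  let _ : Field (𝓞 K ⧸ v.asIdeal) := Ideal.Quotient.field _
  let iO : 𝓞 K →+* 𝓞 L := RingOfIntegers.mapRingHom i
  let ψ : 𝓞 K →+* AlgebraicClosure (ZMod p) := φ.comp iO
  have hψv : ∀ x, x ∈ v.asIdeal ↔ ψ x = 0 := hv
  -- the representatives of the roots
  let r : L → BB φ := fun ρ => if h : ρ ∈ BB φ then ⟨ρ, h⟩ else 0
  have hr' : ∀ ρ (h : ρ ∈ BB φ), r ρ = ⟨ρ, h⟩ := fun ρ h => dif_pos h
  have hr : ∀ ρ ∈ S, (r ρ : L) = ρ := fun ρ hρ => by rw [hr' ρ (hS ρ hρ)]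
  have hrτ : ∀ ρ ∈ S, ext φ (r (τ ρ)) = ext φ (r ρ) ^ p := by
    intro ρ hρ
    obtain ⟨h1, h2⟩ := frob_BB φ τ hφ ⟨ρ, hS ρ hρ⟩
    rw [hr' ρ (hS ρ hρ), ← h2, hr' _ h1]
  have hSn : ∀ n : ℕ, ∀ ρ ∈ S, (τ^[n]) ρ ∈ S := by
    intro n
    induction n with
    | zero => exact fun ρ hρ => hρ
    | succ n ih =>
      intro ρ hρ
      rw [Function.iterate_succ_apply']
      exact hSτ _ (ih ρ hρ)
  have hrn : ∀ n : ℕ, ∀ ρ ∈ S, ext φ (r ((τ^[n]) ρ)) = ext φ (r ρ) ^ (p ^ n) := by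
    intro n
    induction n with
    | zero => intro ρ _; rw [pow_zero, pow_one]; rfl
    | succ n ih =>
      intro ρ hρ
      rw [Function.iterate_succ_apply', hrτ _ (hSn n ρ hρ), ih ρ hρ, ← pow_mul, pow_succ]
  have hrinj : ∀ ρ ∈ S, ∀ ρ' ∈ S, ext φ (r ρ) = ext φ (r ρ') → ρ = ρ' := by
    intro ρ hρ ρ' hρ' h
    by_contra hne
    have h1 := hSd ρ hρ ρ' hρ' hne
    have h2 : ((r ρ - r ρ' : BB φ) : L) = ρ - ρ' := by
      rw [← hr ρ hρ, ← hr ρ' hρ']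
      simp [hr' ρ (hS ρ hρ), hr' ρ' (hS ρ' hρ')]
    refine ext_ne_zero_of φ (r ρ - r ρ') (by rw [h2]; exact h1) (by rw [h2]; exact sub_ne_zero.2 hne) ?_
    rw [map_sub, h, sub_self]
  -- the class
  obtain ⟨h1, h3⟩ := frob_BB φ τ hφ ⟨θ, hθ⟩
  have hθp : ext φ ⟨θ, hθ⟩ ^ p = ext φ ⟨θ, hθ⟩ := by
    rw [← h3]
    congr 2
  have hcardp : Nat.card (ZMod p) = p := Nat.card_zmod p
  obtain ⟨z, hz⟩ := mem_base (κ := ZMod p) (ext φ ⟨θ, hθ⟩) (by rw [hcardp]; exact hθp)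
  obtain ⟨n, rfl⟩ : ∃ n : ℕ, (n : ZMod p) = z := ⟨z.val, ZMod.natCast_zmod_val z⟩
  have hn : ψ (n : 𝓞 K) = ext φ ⟨θ, hθ⟩ := by
    rw [← hz, map_natCast, map_natCast]
  refine ⟨(n : 𝓞 K), fun t ht => ?_⟩
  have htθ : φ (RingOfIntegers.mapRingHom i t) = ext φ ⟨θ, hθ⟩ := by
    rw [hψv, map_sub, sub_eq_zero] at ht
    rw [← hn]
    exact ht
  have hev := evB_ext i θ φ hθ t htθ
  have hevg : ∀ q : (𝓞 K)[X], ψ (q.eval t) = ext φ (evB i θ φ hθ q) := fun q =>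
    (congrFun (congrArg DFunLike.coe hev) q).symm
  have hgt : g.eval t ∈ v.asIdeal := by
    rw [hψv, hevg]
    have h4 : evB i θ φ hθ g = 0 := by
      apply Subtype.ext
      rw [evB_val, hg]
      rfl
    rw [h4, map_zero]
  have hgt' : g.derivative.eval t ∉ v.asIdeal := by
    rw [hψv, hevg]
    refine ext_ne_zero_of φ _ ?_ ?_
    · rw [evB_val]; exact hgi
    · rw [evB_val]; exact hg'
  refine ⟨hgt, hgt', ?_⟩
  have hlct : (H.leadingCoeff).eval t ∉ v.asIdeal := by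
    rw [hψv, hevg]
    refine ext_ne_zero_of φ _ ?_ ?_
    · rw [evB_val]; exact hci
    · rw [evB_val]; exact hc
  have hlc0 : evalRingHom t H.leadingCoeff ≠ 0 := by
    intro h
    apply hlct
    have : H.leadingCoeff.eval t = 0 := h
    rw [this]
    exact zero_mem _
  have hspec := spec_poly i θ φ hθ H S hH r hr t htθ
  set P := H.map (evalRingHom t) with hP
  have hPdeg : P.natDegree = H.natDegree := natDegree_map_of_leadingCoeff_ne_zero _ hlc0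
  have hPlc : P.leadingCoeff = H.leadingCoeff.eval t :=
    leadingCoeff_map_of_leadingCoeff_ne_zero _ hlc0
  -- the residue field
  let ψ' : (𝓞 K ⧸ v.asIdeal) →+* AlgebraicClosure (ZMod p) :=
    Ideal.Quotient.lift v.asIdeal ψ fun x hx => (hψv x).1 hx
  have hψ' : ψ'.comp (Ideal.Quotient.mk v.asIdeal) = ψ := by
    ext x
    rfl
  have hPψ : (P.map (Ideal.Quotient.mk v.asIdeal)).map ψ' =
      C (ext φ (evB i θ φ hθ H.leadingCoeff)) * ∏ ρ ∈ S, (X - C (ext φ (r ρ))) := by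
    rw [Polynomial.map_map, hψ']
    exact hspec
  have hc0 : ext φ (evB i θ φ hθ H.leadingCoeff) ≠ 0 := by
    rw [← hevg]
    exact fun h => hlct ((hψv _).2 h)
  have hroot : ∀ x : AlgebraicClosure (ZMod p),
      ((P.map (Ideal.Quotient.mk v.asIdeal)).map ψ').eval x = 0 →
      ∃ ρ ∈ S, x = ext φ (r ρ) := by
    intro x hx
    rw [hPψ, eval_mul, eval_C, eval_prod, mul_eq_zero, Finset.prod_eq_zero_iff] at hx
    rcases hx with hx | ⟨ρ, hρ, hx⟩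
    · exact absurd hx hc0
    · rw [eval_sub, eval_X, eval_C, sub_eq_zero] at hx
      exact ⟨ρ, hρ, hx⟩
  have hcard : Nat.card (𝓞 K ⧸ v.asIdeal) = p := by
    rw [← hnorm, Ideal.absNorm_apply, Submodule.cardQuot_apply]
  refine ⟨hPdeg, by rwa [hPlc], ?_, ?_, ?_⟩
  · rw [← separable_map ψ', hPψ]
    refine Separable.unit_mul (isUnit_C.2 hc0.isUnit) ?_
    rw [separable_prod_X_sub_C_iff']
    exact hrinj
  · intro _
    refine ⟨h2, fun x hx => ?_⟩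
    have h4 : ((P.map (Ideal.Quotient.mk v.asIdeal)).map ψ').eval (ψ' x) = 0 := by
      rw [eval_map_apply, hx, map_zero]
    obtain ⟨ρ, hρ, h5⟩ := hroot _ h4
    have h6 : ψ' x ^ p = ψ' x := by
      have := Fintype.ofFinite (𝓞 K ⧸ v.asIdeal)
      have h7 : x ^ Fintype.card (𝓞 K ⧸ v.asIdeal) = x := FiniteField.pow_card x
      have h8 : Fintype.card (𝓞 K ⧸ v.asIdeal) = p := by rw [← hcard, Nat.card_eq_fintype_card]
      have h9 : x ^ p = x := by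
        calc x ^ p = x ^ Fintype.card (𝓞 K ⧸ v.asIdeal) := by rw [h8]
          _ = x := h7
      rw [← map_pow, h9]
    rw [h5, ← hrτ ρ hρ] at h6
    exact hder ρ hρ (hrinj _ (hSτ ρ hρ) _ hρ h6)
  · intro hℓ n hn
    let _ : Algebra (𝓞 K ⧸ v.asIdeal) (AlgebraicClosure (ZMod p)) := ψ'.toAlgebra
    rw [isCoprime_iff_aeval_ne_zero_of_isAlgClosed _ (AlgebraicClosure (ZMod p))]
    intro x
    by_contra hx
    push Not at hx
    obtain ⟨hx1, hx2⟩ := hx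
    rw [aeval_def, ← eval_map] at hx2
    obtain ⟨ρ, hρ, h5⟩ := hroot x hx2
    simp only [map_sub, map_pow, aeval_X] at hx1
    rw [sub_eq_zero, hnorm, h5, ← hrn n ρ hρ] at hx1
    exact hcyc hℓ n hn ρ hρ (hrinj _ (hSn n ρ hρ) _ hρ hx1)

end Pool.Agent.TH120.Sec
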